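import Pool.Agent.H87.Oct.SlopeOct
import Pool.Graph.R_seed8.R782.Bal.Main

/-!
# Octahedralizations embedded in spheres
-/

set_option autoImplicit false
set_option linter.unusedSectionVars false

namespace Pool.Agent.H87.Oct

open Finset Module Pool.Agent.W555.KS Pool.Agent.W907.SG Pool.Agent.W907.SM Pool.Agent.Y131.KS
open Pool.Agent.R782.Bal Pool.Agent.Y132.SI Pool.Agent.R781.VS

/-- vanishing of the obstructions of embedded flag complexes in all large degrees -/
theorem emb_obs {d : ℕ} {V : Type} {G : SimpleGraph V} (h : Emb d G) {k : ℕ} (hk : d < k) :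
    Obs G (2 * k) := by
  classical
  intro n e
  refine vk_of_vk2 ?_
  refine vk2_le (clF_cx G e) (D := 2 * (d + 1)) (by omega) ?_
  cases h with
  | @sphere N n' K f hn hK hf =>
    refine vk2_le (clF_cx G e) (D := n' + 1) (by omega) ?_
    refine vk2_of_sphere hK (e.symm.toEmbedding.trans f) fun σ hσ => ?_
    rw [← map_map]
    exact hf _ (mem_clF.mp hσ)
  | unit F hfin hF hn hinj =>
    have hmem : ∀ x ∈ Pool.Agent.W289.KS.rea (clF G e), (fun v => x (e v)) ∈ Rea G := by
      rintro x ⟨h1, h2, σ, hσ, h3⟩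
      refine ⟨fun v => h1 _, ?_, ?_⟩
      · have : Fintype V := Fintype.ofFinite V
        rw [finsum_eq_sum_of_fintype, ← h2]
        exact Fintype.sum_equiv e _ _ fun v => rfl
      · have h4 := mem_clF.mp hσ
        refine h4.subset ?_
        intro v hv
        rw [mem_coe, mem_map]
        refine ⟨e v, ?_, e.symm_apply_apply v⟩
        by_contra h5
        exact hv (h3 _ h5)
    have hC : ConeEmb (clF G e) (2 * d + 1) := by
      refine cone_of_almost _ (fun x => F fun v => x (e v)) ?_ ?_ ?_
      · refine hF.comp (Continuous.continuousOn ?_) hmem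
        exact continuous_pi fun v => continuous_apply _
      · intro x hx
        exact hn _ (hmem x hx)
      · intro x hx y hy hxy
        exact hinj _ (hmem x hx) _ (hmem y hy) (fun v => hxy (e v))
    have h1 := vk2_of_odd (clF_cx G e) (odd_of_coneEmb (clF_cx G e) hC)
    exact h1

/-- mod 2 acyclicity in the degrees `≥ d` -/
theorem ex2_of_emb {d : ℕ} {V : Type} [Fintype V] [LinearOrder V] {G : SimpleGraph V}
    (h : Emb d (oct G)) {k : ℕ} (hk : d < k) : Ex2 G k :=
  ex2_of_obs (fun _ hk => emb_obs h hk) k hk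

/-- `ℓ²`-vanishing -/
theorem l2_of_emb {d : ℕ} {V : Type} [Fintype V] [LinearOrder V] [LinearOrder (V × Bool)]
    {G : SimpleGraph V} (h : Emb d (oct G)) {i : ℕ} (hi : d < i) : L2Van (oct G) i :=
  l2_oct (ex2_of_emb h hi)

end Pool.Agent.H87.Oct
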