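import Pool.Graph.R_seed8.W290.SG.Rank
import Pool.Graph.R_seed8.W907.SG.Defs

/-!
# Real and mod 2 Betti numbers with trivial coefficients
-/

set_option autoImplicit false
set_option linter.unusedSectionVars false

namespace Pool.Agent.H87.Oct

open Finset Module Pool.Agent.W907.SG

variable {V : Type} [Fintype V] [LinearOrder V]

/-- the trivial coefficients (the condition in the definition of the chains is empty) -/
abbrev tF (F : Type) [Field F] (V : Type) : V → F →ₗ[F] F := fun _ => - LinearMap.id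

theorem mem_KK_tF {F : Type} [Field F] {G : SimpleGraph V} {A : Set V} {i : ℕ} {c : Finset V → F} :
    c ∈ KK G (tF F V) A ∅ i ↔
      ∀ T : Finset V, ¬ (G.IsClique (T : Set V) ∧ (T : Set V) ⊆ A ∧ T.card = i) → c T = 0 := by
  rw [mem_KK]
  refine ⟨fun h => h.1, fun h => ⟨h, fun T t _ => ?_⟩⟩
  simp

/-- the simplices -/
abbrev Sm (G : SimpleGraph V) (A : Set V) (i : ℕ) : Type :=
  {T : Finset V // G.IsClique (T : Set V) ∧ (T : Set V) ⊆ A ∧ T.card = i}

noncomputable instance instSm (G : SimpleGraph V) (A : Set V) (i : ℕ) : Fintype (Sm G A i) :=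
  Fintype.ofFinite _

open Classical in
/-- extension by zero -/
noncomputable def ex (F : Type) [Field F] (G : SimpleGraph V) (A : Set V) (i : ℕ) :
    (Sm G A i → F) →ₗ[F] (Finset V → F) where
  toFun f T := if h : G.IsClique (T : Set V) ∧ (T : Set V) ⊆ A ∧ T.card = i then f ⟨T, h⟩ else 0
  map_add' f g := by
    funext T
    simp only [Pi.add_apply]
    split_ifs
    · rfl
    · rw [add_zero]
  map_smul' r f := by
    funext T
    simp only [Pi.smul_apply, RingHom.id_apply]
    split_ifs
    · rfl
    · rw [smul_zero]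

theorem ex_inj (F : Type) [Field F] (G : SimpleGraph V) (A : Set V) (i : ℕ) :
    Function.Injective (ex F G A i) := by
  intro f g h
  funext T
  have h1 := congrFun h T.1
  simp only [ex, LinearMap.coe_mk, AddHom.coe_mk] at h1
  rw [dif_pos T.2, dif_pos T.2] at h1
  exact h1

theorem ex_range (F : Type) [Field F] (G : SimpleGraph V) (A : Set V) (i : ℕ) :
    LinearMap.range (ex F G A i) = KK G (tF F V) A ∅ i := by
  ext c
  rw [mem_KK_tF, LinearMap.mem_range]
  constructor
  · rintro ⟨f, rfl⟩ T hT
    simp only [ex, LinearMap.coe_mk, AddHom.coe_mk]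
    rw [dif_neg hT]
  · intro h
    refine ⟨fun T => c T.1, ?_⟩
    funext T
    simp only [ex, LinearMap.coe_mk, AddHom.coe_mk]
    split_ifs with h1
    · rfl
    · exact (h T h1).symm

open Classical in
/-- the boundary matrix -/
noncomputable def Mx (G : SimpleGraph V) (A : Set V) (i : ℕ) : Matrix (Finset V) (Sm G A i) ℤ :=
  Matrix.of fun T S => ∑ v ∈ Tᶜ, if insert v T = S.1 then sg v T else 0

theorem Mx_mul (F : Type) [Field F] (G : SimpleGraph V) (A : Set V) (i : ℕ) (f : Sm G A i → F) :
    ((Mx G A i).map (Int.cast : ℤ → F)).mulVecLin f = bd F (ex F G A i f) := by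
  classical
  funext T
  rw [Matrix.mulVecLin_apply, Matrix.mulVec, dotProduct, bd_apply]
  simp only [Matrix.map_apply, Mx, Matrix.of_apply, Int.cast_sum, sum_mul]
  rw [sum_comm]
  refine sum_congr rfl fun v _ => ?_
  simp only [ex, LinearMap.coe_mk, AddHom.coe_mk]
  split_ifs with h
  · rw [sum_eq_single (⟨insert v T, h⟩ : Sm G A i)]
    · rw [if_pos rfl, zsmul_eq_mul]
    · intro S _ hS
      rw [if_neg]
      · simp
      · intro h2
        exact hS (Subtype.ext h2.symm)
    · intro h2
      exact absurd (mem_univ _) h2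
  · rw [smul_zero]
    refine sum_eq_zero fun S _ => ?_
    rw [if_neg]
    · simp
    · intro h2
      exact h (h2 ▸ S.2)

theorem fin_KK (F : Type) [Field F] (G : SimpleGraph V) (A : Set V) (i : ℕ) :
    finrank F (KK G (tF F V) A ∅ i) = Fintype.card (Sm G A i) := by
  rw [← ex_range, LinearMap.finrank_range_of_inj (ex_inj F G A i), Module.finrank_fintype_fun_eq_card]

theorem fin_map (F : Type) [Field F] (G : SimpleGraph V) (A : Set V) (i : ℕ) :
    finrank F ((KK G (tF F V) A ∅ i).map (bd F)) = ((Mx G A i).map (Int.cast : ℤ → F)).rank := by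
  have h : LinearMap.range ((bd F).comp (ex F G A i)) =
      LinearMap.range ((Mx G A i).map (Int.cast : ℤ → F)).mulVecLin := by
    ext x
    simp only [LinearMap.mem_range, LinearMap.comp_apply]
    constructor
    · rintro ⟨f, rfl⟩
      exact ⟨f, Mx_mul F G A i f⟩
    · rintro ⟨f, rfl⟩
      exact ⟨f, (Mx_mul F G A i f).symm⟩
  rw [← ex_range, ← LinearMap.range_comp, Matrix.rank, h]

theorem fin_ZZ (F : Type) [Field F] (G : SimpleGraph V) (A : Set V) (i : ℕ) :
    finrank F (ZZ G (tF F V) A ∅ i) + ((Mx G A i).map (Int.cast : ℤ → F)).rank = Fintype.card (Sm G A i) := by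
  rw [← fin_KK F, ← fin_map F]
  have h1 := LinearMap.finrank_range_add_finrank_ker ((bd F).domRestrict (KK G (tF F V) A ∅ i))
  have h2 : LinearMap.range ((bd F).domRestrict (KK G (tF F V) A ∅ i)) =
      (KK G (tF F V) A ∅ i).map (bd F) := by
    ext x
    simp only [LinearMap.mem_range, Submodule.mem_map, LinearMap.domRestrict_apply]
    constructor
    · rintro ⟨f, rfl⟩
      exact ⟨f.1, f.2, rfl⟩
    · rintro ⟨f, hf, rfl⟩
      exact ⟨⟨f, hf⟩, rfl⟩
  have h3 : finrank F (LinearMap.ker ((bd F).domRestrict (KK G (tF F V) A ∅ i))) =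
      finrank F (ZZ G (tF F V) A ∅ i) := by
    have h4 : (LinearMap.ker ((bd F).domRestrict (KK G (tF F V) A ∅ i))).map
        (KK G (tF F V) A ∅ i).subtype = ZZ G (tF F V) A ∅ i := by
      ext x
      simp only [Submodule.mem_map, LinearMap.mem_ker, LinearMap.domRestrict_apply, Submodule.coe_subtype,
        Subtype.exists, exists_and_right, exists_eq_right, ZZ, Submodule.mem_inf]
      constructor
      · rintro ⟨h4, h5⟩
        exact ⟨h4, h5⟩
      · rintro ⟨h4, h5⟩
        exact ⟨h4, h5⟩
    rw [← Submodule.finrank_map_subtype_eq, h4]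
  rw [h2, h3] at h1
  omega

/-- real Betti numbers are at most the mod `p` Betti numbers -/
theorem beta_real_le (p : ℕ) [Fact p.Prime] (G : SimpleGraph V) (A : Set V) (i : ℕ) :
    beta G (tF ℝ V) A ∅ i ≤ beta G (tF (ZMod p) V) A ∅ i := by
  have h1 := fin_ZZ ℝ G A i
  have h2 := fin_ZZ (ZMod p) G A i
  have h3 := fin_map ℝ G A (i + 1)
  have h4 := fin_map (ZMod p) G A (i + 1)
  have h5 := Pool.Agent.W290.SG.rank_modp p (Mx G A i)
  have h6 := Pool.Agent.W290.SG.rank_modp p (Mx G A (i + 1))
  unfold beta BB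
  rw [h3, h4]
  omega

end Pool.Agent.H87.Oct
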