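import Pool.Agent.H87.Oct.ObsNe
import Pool.Agent.H87.Oct.Cmp
import Pool.Graph.R_seed8.R782.Bal.Hom

/-!
# Extension of a cocycle
-/

set_option autoImplicit false
set_option linter.unusedSectionVars false

namespace Pool.Agent.H87.Oct

open Finset Module Pool.Agent.W907.SG Pool.Agent.R782.Bal

variable {V : Type} [Fintype V] [LinearOrder V] {G : SimpleGraph V}

/-- the homology with coefficients mod 2 of the flag complex vanishes in the degree `k - 1` -/
def Ex2 (G : SimpleGraph V) (k : ℕ) : Prop :=
  ZZ G (tF (ZMod 2) V) Set.univ ∅ k ≤ BB G (tF (ZMod 2) V) Set.univ ∅ k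

theorem beta_of_ex2 {k : ℕ} (h : Ex2 G k) : beta G (tF (ZMod 2) V) Set.univ ∅ k = 0 := by
  unfold beta
  have := Submodule.finrank_mono h
  omega

/-- the double sum over flags -/
theorem sum_flag (f g : Finset V → ZMod 2) :
    ∑ T : Finset V, f T * ∑ v ∈ Tᶜ, g (insert v T) = ∑ A : Finset V, (∑ u ∈ A, f (A.erase u)) * g A := by
  simp only [mul_sum, sum_mul]
  rw [sum_sigma', sum_sigma']
  refine sum_nbij' (fun z : (_ : Finset V) × V => ⟨insert z.2 z.1, z.2⟩)
    (fun z : (_ : Finset V) × V => ⟨z.1.erase z.2, z.2⟩) ?_ ?_ ?_ ?_ ?_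
  · rintro ⟨T, v⟩ h
    simp
  · rintro ⟨T, v⟩ h
    simp
  · rintro ⟨T, v⟩ h
    simp only [mem_sigma, mem_univ, mem_compl, true_and] at h
    simp [erase_insert h]
  · rintro ⟨T, v⟩ h
    simp only [mem_sigma, mem_univ, true_and] at h
    simp [insert_erase h]
  · rintro ⟨T, v⟩ h
    simp only [mem_sigma, mem_univ, mem_compl, true_and] at h
    simp [erase_insert h]

theorem bd_single (A : Finset V) :
    bd (ZMod 2) (Pi.single A (1 : ZMod 2)) = ∑ u ∈ A, Pi.single (A.erase u) (1 : ZMod 2) := by
  funext T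
  rw [bd_tr, Finset.sum_apply]
  by_cases h : ∃ u ∈ A, A.erase u = T
  · obtain ⟨u, hu, rfl⟩ := h
    rw [sum_eq_single u, sum_eq_single u]
    · rw [insert_erase hu, Pi.single_eq_same, Pi.single_eq_same]
    · intro w hw hne
      rw [Pi.single_eq_of_ne]
      intro h
      have h1 : u ∈ A.erase w := mem_erase.mpr ⟨hne.symm, hu⟩
      rw [← h] at h1
      exact (mem_erase.mp h1).1 rfl
    · intro h; exact absurd hu h
    · intro w hw hne
      rw [Pi.single_eq_of_ne]
      intro h
      have h1 : u ∈ insert w (A.erase u) := by rw [h]; exact hu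
      rw [mem_insert] at h1
      rcases h1 with h1 | h1
      · exact hne h1.symm
      · exact (mem_erase.mp h1).1 rfl
    · intro h
      exfalso
      apply h
      rw [mem_compl]
      simp
  · push Not at h
    rw [sum_eq_zero, sum_eq_zero]
    · intro u hu
      rw [Pi.single_eq_of_ne (h u hu).symm]
    · intro w hw
      rw [mem_compl] at hw
      rw [Pi.single_eq_of_ne]
      intro h1
      refine h w (by rw [← h1]; exact mem_insert_self _ _) ?_
      rw [← h1, erase_insert hw]

theorem single_mem {A : Finset V} (hA : G.IsClique (A : Set V)) :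
    (Pi.single A (1 : ZMod 2) : Finset V → ZMod 2) ∈ KK G (tF (ZMod 2) V) Set.univ ∅ A.card := by
  rw [mem_KK_tF]
  intro T hT
  rw [Pi.single_eq_of_ne]
  rintro rfl
  exact hT ⟨hA, Set.subset_univ _, rfl⟩

/-- cohomology vanishes if homology does -/
theorem coh {k : ℕ} (hk : Ex2 G (k + 1)) (E : Finset V → ZMod 2)
    (hE : ∀ A : Finset V, G.IsClique (A : Set V) → A.card = k + 2 → ∑ u ∈ A, E (A.erase u) = 0) :
    ∃ y : Finset V → ZMod 2, (∀ B, B.card ≠ k → y B = 0) ∧
      ∀ A : Finset V, G.IsClique (A : Set V) → A.card = k + 1 → ∑ u ∈ A, y (A.erase u) = E A := by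
  classical
  set f := (bd (ZMod 2) (V := V) (M := ZMod 2)).domRestrict (KK G (tF (ZMod 2) V) Set.univ ∅ (k + 1)) with hf
  let φ0 : (Finset V → ZMod 2) →ₗ[ZMod 2] ZMod 2 :=
    { toFun := fun c => ∑ T, E T * c T
      map_add' := fun c d => by
        simp only [Pi.add_apply, mul_add, sum_add_distrib]
      map_smul' := fun r c => by
        simp only [Pi.smul_apply, smul_eq_mul, RingHom.id_apply, mul_sum]
        exact sum_congr rfl fun T _ => by ring }
  have h0 : ∀ c, φ0 c = ∑ T, E T * c T := fun c => rfl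
  have h1 : φ0.domRestrict (KK G (tF (ZMod 2) V) Set.univ ∅ (k + 1)) ∈
      (LinearMap.ker f).dualAnnihilator := by
    rw [Submodule.mem_dualAnnihilator]
    rintro ⟨c, hc⟩ hcf
    have hcz : bd (ZMod 2) c = 0 := hcf
    obtain ⟨d, hd, rfl⟩ := hk ⟨hc, hcz⟩
    show φ0 (bd (ZMod 2) d) = 0
    rw [h0]
    simp only [bd_tr]
    rw [sum_flag]
    refine sum_eq_zero fun A _ => ?_
    by_cases hA : G.IsClique (A : Set V) ∧ A.card = k + 2
    · rw [hE A hA.1 hA.2, zero_mul]
    · rw [mem_KK_tF.mp hd A, mul_zero]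
      rintro ⟨h2, _, h3⟩
      exact hA ⟨h2, h3⟩
  rw [← LinearMap.range_dualMap_eq_dualAnnihilator_ker] at h1
  obtain ⟨ψ, hψ⟩ := h1
  refine ⟨fun B => if B.card = k then ψ (Pi.single B 1) else 0, fun B hB => if_neg hB, ?_⟩
  intro A hA hc
  have h2 : ∑ u ∈ A, (if (A.erase u).card = k then ψ (Pi.single (A.erase u) 1) else 0) =
      ψ (bd (ZMod 2) (Pi.single A (1 : ZMod 2))) := by
    rw [bd_single, map_sum]
    refine sum_congr rfl fun u hu => ?_
    rw [if_pos]
    rw [card_erase_of_mem hu]
    omega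
  have hmem := single_mem hA
  rw [hc] at hmem
  rw [h2]
  have h3 := LinearMap.congr_fun hψ ⟨Pi.single A 1, hmem⟩
  rw [LinearMap.dualMap_apply] at h3
  have h4 : φ0 (Pi.single A 1) = E A := by
    rw [h0, sum_eq_single A]
    · rw [Pi.single_eq_same, mul_one]
    · intro T _ hT
      rw [Pi.single_eq_of_ne hT, mul_zero]
    · intro h; exact absurd (mem_univ A) h
  rw [← h4]
  exact h3

/-- the sum over the proper subsets is a cocycle in the first degree in which it is not zero -/
theorem ssub_cocycle {n : Finset V → ZMod 2} {k : ℕ}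
    (hn : ∀ A : Finset V, G.IsClique (A : Set V) → A.card ≤ k → ∑ B ∈ A.ssubsets, n B = 0)
    {A : Finset V} (hA : G.IsClique (A : Set V)) (hc : A.card = k + 2) :
    ∑ u ∈ A, ∑ B ∈ (A.erase u).ssubsets, n B = 0 := by
  -- `D (D n) = n` on `A`
  have h1 : ∑ B ∈ A.powerset, ∑ C ∈ B.powerset, n C = n A := by
    rw [sum_powerset_eq, sum_ssub_ssub, sum_powerset_eq, add_assoc, add_self, add_zero]
  -- `∑ C ⊆ B, n C = n B + ∑ C ⊂ B, n C`
  have h2 : ∑ B ∈ A.powerset, ∑ C ∈ B.ssubsets, n C = ∑ C ∈ A.ssubsets, n C := by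
    have h3 : ∑ B ∈ A.powerset, ∑ C ∈ B.powerset, n C =
        ∑ B ∈ A.powerset, n B + ∑ B ∈ A.powerset, ∑ C ∈ B.ssubsets, n C := by
      rw [← sum_add_distrib]
      exact sum_congr rfl fun B _ => sum_powerset_eq B n
    rw [h1, sum_powerset_eq A n] at h3
    have h4 : n A + (∑ C ∈ A.ssubsets, n C + ∑ B ∈ A.powerset, ∑ C ∈ B.ssubsets, n C) = n A := by
      rw [← add_assoc]; exact h3.symm
    have h5 := left_eq_add.mp h4.symm
    exact (CharTwo.add_eq_zero.mp h5).symm
  rw [sum_powerset_eq] at h2
  have h6 : ∑ B ∈ A.ssubsets, ∑ C ∈ B.ssubsets, n C = 0 := by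
    have h7 : ∑ C ∈ A.ssubsets, n C + 0 = ∑ C ∈ A.ssubsets, n C := add_zero _
    exact (add_left_cancel (h7.trans h2.symm)).symm
  rw [← h6]
  symm
  -- only the sets with `k + 1` elements contribute
  rw [← sum_filter_add_sum_filter_not A.ssubsets (fun B => B.card = k + 1)]
  have h8 : ∑ B ∈ A.ssubsets.filter (fun B => ¬ B.card = k + 1), ∑ C ∈ B.ssubsets, n C = 0 := by
    refine sum_eq_zero fun B hB => ?_
    rw [mem_filter, mem_ssubsets] at hB
    have h9 := card_lt_card hB.1
    refine hn B (hA.subset (by exact_mod_cast hB.1.subset)) ?_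
    omega
  rw [h8, add_zero]
  symm
  refine sum_bij (fun u _ => A.erase u) ?_ ?_ ?_ ?_
  · intro u hu
    rw [mem_filter, mem_ssubsets, card_erase_of_mem hu]
    exact ⟨erase_ssubset hu, by omega⟩
  · intro u hu w hw h
    by_contra hne
    have h9 : w ∈ A.erase u := mem_erase.mpr ⟨fun h' => hne h'.symm, hw⟩
    rw [h] at h9
    exact (mem_erase.mp h9).1 rfl
  · intro B hB
    rw [mem_filter, mem_ssubsets] at hB
    obtain ⟨u, hu, hu2⟩ := exists_of_ssubset hB.1
    refine ⟨u, hu, ?_⟩
    symm
    refine eq_of_subset_of_card_le ?_ ?_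
    · intro x hx
      exact mem_erase.mpr ⟨fun h => hu2 (h ▸ hx), hB.1.subset hx⟩
    · rw [card_erase_of_mem hu]
      omega
  · intro u _
    rfl

/-- the extension of a cocycle -/
theorem ext_cocycle {m : ℕ} (hG : ∀ k, m < k → Ex2 G k) (c0 : Finset V → ZMod 2)
    (h0 : ∀ A, A.card ≠ m → c0 A = 0)
    (hc : ∀ A : Finset V, G.IsClique (A : Set V) → A.card = m + 1 → ∑ u ∈ A, c0 (A.erase u) = 0) :
    ∀ k, m + 1 ≤ k → ∃ n : Finset V → ZMod 2, (∀ A, A.card = m → n A = c0 A) ∧
      (∀ A, A.card < m → n A = 0) ∧ (∀ A, k ≤ A.card → n A = 0) ∧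
      ∀ A : Finset V, G.IsClique (A : Set V) → A.card ≤ k → ∑ B ∈ A.ssubsets, n B = 0 := by
  intro k hk
  induction k, hk using Nat.le_induction with
  | base =>
    refine ⟨c0, fun _ _ => rfl, fun A hA => h0 A hA.ne, fun A hA => h0 A (by omega), ?_⟩
    intro A hA hcard
    by_cases h1 : A.card = m + 1
    · rw [← hc A hA h1]
      rw [← sum_filter_add_sum_filter_not A.ssubsets (fun B => B.card = m)]
      have h8 : ∑ B ∈ A.ssubsets.filter (fun B => ¬ B.card = m), c0 B = 0 := by
        refine sum_eq_zero fun B hB => ?_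
        rw [mem_filter] at hB
        exact h0 B hB.2
      rw [h8, add_zero]
      symm
      refine sum_bij (fun u _ => A.erase u) ?_ ?_ ?_ ?_
      · intro u hu
        rw [mem_filter, mem_ssubsets, card_erase_of_mem hu]
        exact ⟨erase_ssubset hu, by omega⟩
      · intro u hu w hw h
        by_contra hne
        have h9 : w ∈ A.erase u := mem_erase.mpr ⟨fun h' => hne h'.symm, hw⟩
        rw [h] at h9
        exact (mem_erase.mp h9).1 rfl
      · intro B hB
        rw [mem_filter, mem_ssubsets] at hB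
        obtain ⟨u, hu, hu2⟩ := exists_of_ssubset hB.1
        refine ⟨u, hu, ?_⟩
        symm
        refine eq_of_subset_of_card_le ?_ ?_
        · intro x hx
          exact mem_erase.mpr ⟨fun h => hu2 (h ▸ hx), hB.1.subset hx⟩
        · rw [card_erase_of_mem hu]
          omega
      · intro u _
        rfl
    · refine sum_eq_zero fun B hB => h0 B ?_
      have := card_lt_card (mem_ssubsets.mp hB)
      omega
  | succ k hk ih =>
    obtain ⟨n, a1, a2, a3, a4⟩ := ih
    obtain ⟨y, y1, y2⟩ := coh (hG (k + 1) (by omega)) (fun A => ∑ B ∈ A.ssubsets, n B)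
      (fun A hA hcard => ssub_cocycle a4 hA hcard)
    refine ⟨n + y, ?_, ?_, ?_, ?_⟩
    · intro A hA
      rw [Pi.add_apply, a1 A hA, y1 A (by omega), add_zero]
    · intro A hA
      rw [Pi.add_apply, a2 A hA, y1 A (by omega), add_zero]
    · intro A hA
      rw [Pi.add_apply, a3 A (by omega), y1 A (by omega), add_zero]
    · intro A hA hcard
      simp only [Pi.add_apply, sum_add_distrib]
      by_cases h1 : A.card = k + 1
      · have h2 : ∑ B ∈ A.ssubsets, y B = ∑ u ∈ A, y (A.erase u) := by
          rw [← sum_filter_add_sum_filter_not A.ssubsets (fun B => B.card = k)]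
          have h8 : ∑ B ∈ A.ssubsets.filter (fun B => ¬ B.card = k), y B = 0 := by
            refine sum_eq_zero fun B hB => ?_
            rw [mem_filter] at hB
            exact y1 B hB.2
          rw [h8, add_zero]
          symm
          refine sum_bij (fun u _ => A.erase u) ?_ ?_ ?_ ?_
          · intro u hu
            rw [mem_filter, mem_ssubsets, card_erase_of_mem hu]
            exact ⟨erase_ssubset hu, by omega⟩
          · intro u hu w hw h
            by_contra hne
            have h9 : w ∈ A.erase u := mem_erase.mpr ⟨fun h' => hne h'.symm, hw⟩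
            rw [h] at h9
            exact (mem_erase.mp h9).1 rfl
          · intro B hB
            rw [mem_filter, mem_ssubsets] at hB
            obtain ⟨u, hu, hu2⟩ := exists_of_ssubset hB.1
            refine ⟨u, hu, ?_⟩
            symm
            refine eq_of_subset_of_card_le ?_ ?_
            · intro x hx
              exact mem_erase.mpr ⟨fun h => hu2 (h ▸ hx), hB.1.subset hx⟩
            · rw [card_erase_of_mem hu]
              omega
          · intro u _
            rfl
        rw [h2, y2 A hA h1, add_self]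
      · rw [a4 A hA (by omega), zero_add]
        refine sum_eq_zero fun B hB => y1 B ?_
        have := card_lt_card (mem_ssubsets.mp hB)
        omega

/-- **The obstruction detects the homology.** -/
theorem not_obs_of_homology {m : ℕ} (hG : ∀ k, m < k → Ex2 G k) (hm : ¬ Ex2 G m) :
    ¬ Obs (oct G) (2 * m) := by
  classical
  -- a cycle and a functional
  unfold Ex2 at hm
  rw [SetLike.le_def] at hm
  push Not at hm
  obtain ⟨z, hz, hzB⟩ := hm
  obtain ⟨φ, hφ1, hφ2⟩ := Submodule.exists_le_ker_of_notMem hzB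
  have hzK := mem_KK_tF.mp hz.1
  have hz2 : bd (ZMod 2) z = 0 := hz.2
  set c0 : Finset V → ZMod 2 := fun A =>
    if G.IsClique (A : Set V) ∧ A.card = m then φ (Pi.single A 1) else 0 with hc0
  obtain ⟨n, a1, a2, _, a4⟩ := ext_cocycle hG c0 (fun A hA => if_neg fun h => hA h.2) (by
    intro A hA hcard
    have h1 : ∑ u ∈ A, c0 (A.erase u) = φ (bd (ZMod 2) (Pi.single A (1 : ZMod 2))) := by
      rw [bd_single, map_sum]
      refine sum_congr rfl fun u hu => ?_
      rw [hc0]
      simp only
      rw [if_pos]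
      refine ⟨hA.subset (by exact_mod_cast erase_subset _ _), ?_⟩
      rw [card_erase_of_mem hu]
      omega
    rw [h1]
    have h2 := single_mem hA
    rw [hcard] at h2
    exact hφ2 ⟨_, h2, rfl⟩) (m + 1 + Fintype.card V) (by omega)
  refine not_obs (z := z) (n := n) ⟨?_, ?_⟩ ?_ a2 ?_
  · intro T hT
    by_contra h
    refine hT (hzK T ?_)
    rintro ⟨h1, _, h2⟩
    exact h ⟨h1, h2⟩
  · intro R
    have := congrFun hz2 R
    rwa [bd_tr] at this
  · intro A hA
    refine a4 A hA ?_
    have := Finset.card_le_univ A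
    omega
  · have h1 : ∀ T : Finset V, z T * n T = z T * φ (Pi.single T 1) := by
      intro T
      by_cases h2 : z T = 0
      · rw [h2, zero_mul, zero_mul]
      · have h3 : G.IsClique (T : Set V) ∧ T.card = m := by
          by_contra h
          refine h2 (hzK T ?_)
          rintro ⟨h1, _, h2⟩
          exact h ⟨h1, h2⟩
        rw [a1 T h3.2, hc0]
        simp only
        rw [if_pos h3]
    rw [sum_congr rfl fun T _ => h1 T]
    have h4 : φ z = ∑ T, z T * φ (Pi.single T 1) := by
      conv_lhs => rw [← Finset.univ_sum_single z]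
      rw [map_sum]
      refine sum_congr rfl fun T _ => ?_
      have h5 : (Pi.single T (z T) : Finset V → ZMod 2) = z T • Pi.single T (1 : ZMod 2) := by
        rw [← Pi.single_smul, smul_eq_mul, mul_one]
      rw [h5, map_smul, smul_eq_mul]
    rw [← h4]
    have h6 : ∀ a : ZMod 2, a ≠ 0 → a = 1 := by decide
    exact h6 _ hφ1

/-- the homology vanishes in all degrees `≥ d` if the obstructions vanish -/
theorem ex2_of_obs {d : ℕ} (hO : ∀ k, d < k → Obs (oct G) (2 * k)) (k : ℕ) (hk : d < k) : Ex2 G k := by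
  classical
  by_contra hcon
  -- the largest bad degree
  have hbd : ∀ k, ¬ Ex2 G k → k ≤ Fintype.card V := by
    intro k hk
    by_contra h
    apply hk
    intro c hc
    have h1 : c = 0 := by
      funext T
      refine mem_KK_tF.mp hc.1 T ?_
      rintro ⟨_, _, h2⟩
      have := Finset.card_le_univ T
      omega
    rw [h1]
    exact Submodule.zero_mem _
  have hne : ((Finset.range (Fintype.card V + 1)).filter (fun j => d < j ∧ ¬ Ex2 G j)).Nonempty :=
    ⟨k, by
      rw [mem_filter, mem_range]
      exact ⟨by have := hbd k hcon; omega, hk, hcon⟩⟩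
  obtain ⟨m, hm, hmax⟩ := Finset.exists_max_image _ id hne
  rw [mem_filter] at hm
  refine not_obs_of_homology (m := m) ?_ hm.2.2 (hO m hm.2.1)
  intro j hj
  by_contra h
  have h1 := hmax j (by
    rw [mem_filter, mem_range]
    have := hbd j h
    exact ⟨by omega, by omega, h⟩)
  simp only [id] at h1
  omega

end Pool.Agent.H87.Oct
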