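import Pool.Agent.H87.Oct.Om

/-!
# The symmetric cycle in the deleted join of the octahedralization
-/

set_option autoImplicit false

namespace Pool.Agent.H87.Oct

open Finset

variable {V : Type} [Fintype V] [DecidableEq V]

/-- the octahedralization: each vertex is replaced by two vertices which are not adjacent -/
abbrev oct {V : Type} (G : SimpleGraph V) : SimpleGraph (V × Bool) := G.comap Prod.fst

/-- the underlying set of vertices -/
def fs (σ : Finset (V × Bool)) : Finset V := σ.image Prod.fst

/-- the vertices with the sign `b` -/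
def sel (b : Bool) (σ : Finset (V × Bool)) : Finset V := univ.filter (fun v => (v, b) ∈ σ)

omit [Fintype V] in
theorem mem_fs {σ : Finset (V × Bool)} {v : V} : v ∈ fs σ ↔ (v, true) ∈ σ ∨ (v, false) ∈ σ := by
  rw [fs, mem_image]
  constructor
  · rintro ⟨⟨w, b⟩, h1, rfl⟩
    cases b
    · exact Or.inr h1
    · exact Or.inl h1
  · rintro (h | h)
    · exact ⟨_, h, rfl⟩
    · exact ⟨_, h, rfl⟩

theorem mem_sel {b : Bool} {σ : Finset (V × Bool)} {v : V} : v ∈ sel b σ ↔ (v, b) ∈ σ := by
  simp [sel]

/-- the vertices in the second component of the suspension -/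
def ss (σ τ : Finset (V × Bool)) : Finset V := sel false σ ∪ sel true τ

theorem ss_subset (σ τ : Finset (V × Bool)) : ss σ τ ⊆ fs σ ∪ fs τ := by
  intro v hv
  rw [ss, mem_union, mem_sel, mem_sel] at hv
  rw [mem_union, mem_fs, mem_fs]
  tauto

/-- consistent sets of signs -/
def Con (σ : Finset (V × Bool)) : Prop := ∀ v, ¬ ((v, true) ∈ σ ∧ (v, false) ∈ σ)

omit [Fintype V] in
theorem con_of_card {σ : Finset (V × Bool)} (h : σ.card ≤ (fs σ).card) : Con σ := by
  intro v ⟨h1, h2⟩
  have h3 : (σ.image Prod.fst).card = σ.card := le_antisymm card_image_le h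
  have h4 := (Finset.card_image_iff.mp h3) h1 h2 rfl
  simp at h4

theorem ss_compl {σ τ : Finset (V × Bool)} (hd : Disjoint σ τ) (hσ : Con σ) (hτ : Con τ) :
    (fs σ ∪ fs τ) \ ss σ τ = ss τ σ := by
  rw [disjoint_left] at hd
  ext v
  simp only [mem_sdiff, mem_union, mem_fs, ss, mem_sel]
  have h1 := hσ v
  have h2 := hτ v
  have h3 := @hd (v, true)
  have h4 := @hd (v, false)
  tauto

variable (G : SimpleGraph V) (n z : Finset V → ZMod 2) (m : ℕ)

/-- the coefficient sum -/
noncomputable def cf (σ τ : Finset (V × Bool)) : ZMod 2 :=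
  ∑ A ∈ Finset.Icc (ss σ τ) (fs σ ∪ fs τ), om G n A (fs τ)

open Classical in
/-- the symmetric cycle -/
noncomputable def Zc (σ τ : Finset (V × Bool)) : ZMod 2 :=
  if Disjoint σ τ ∧ σ.card = m ∧ τ.card = m then z (fs σ) * z (fs τ) * cf G n σ τ else 0

variable {G n z m}

theorem Zc_ne {σ τ : Finset (V × Bool)} (h : Zc G n z m σ τ ≠ 0) :
    Disjoint σ τ ∧ σ.card = m ∧ τ.card = m ∧ z (fs σ) ≠ 0 ∧ z (fs τ) ≠ 0 := by
  rw [Zc] at h
  split_ifs at h with h1
  · refine ⟨h1.1, h1.2.1, h1.2.2, ?_, ?_⟩
    · intro h2; exact h (by rw [h2]; ring)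
    · intro h2; exact h (by rw [h2]; ring)
  · exact absurd rfl h

/-- the hypotheses on the cycle `z` -/
structure IsCyc (G : SimpleGraph V) (z : Finset V → ZMod 2) (m : ℕ) : Prop where
  supp : ∀ T, z T ≠ 0 → G.IsClique (T : Set V) ∧ T.card = m
  cyc : ∀ R : Finset V, ∑ v ∈ Rᶜ, z (insert v R) = 0

theorem Zc_symm (hz : IsCyc G z m)
    (hn : ∀ A : Finset V, G.IsClique (A : Set V) → ∑ B ∈ A.ssubsets, n B = 0)
    (σ τ : Finset (V × Bool)) : Zc G n z m σ τ = Zc G n z m τ σ := by
  unfold Zc
  by_cases h : Disjoint σ τ ∧ σ.card = m ∧ τ.card = m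
  · rw [if_pos h, if_pos ⟨h.1.symm, h.2.2, h.2.1⟩]
    by_cases h1 : z (fs σ) = 0
    · rw [h1]; ring
    by_cases h2 : z (fs τ) = 0
    · rw [h2]; ring
    obtain ⟨c1, e1⟩ := hz.supp _ h1
    obtain ⟨c2, e2⟩ := hz.supp _ h2
    have k1 : Con σ := con_of_card (by omega)
    have k2 : Con τ := con_of_card (by omega)
    have key : cf G n σ τ = cf G n τ σ := by
      unfold cf
      rw [sum_Icc_eq (g := fun A => om G n A (fs τ)ᶜ) (fun A _ => om_sum hn A (fs τ)) (ss_subset σ τ),
        ss_compl h.1 k1 k2, union_comm (fs τ) (fs σ)]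
      refine sum_congr rfl fun A hA => ?_
      rw [Finset.mem_Icc] at hA
      refine om_congr A _ _ ?_
      rintro u ⟨h3, w, h4, h5, h6⟩
      rw [mem_compl]
      have h7 := hA.2 h3
      have h8 := hA.2 h4
      rw [mem_union] at h7 h8
      constructor
      · intro h9
        exact h7.resolve_right h9
      · intro h9 h10
        rcases h8 with h8 | h8
        · exact h6 (c1 (by exact_mod_cast h9) (by exact_mod_cast h8) h5.symm)
        · exact h6 (c2 (by exact_mod_cast h10) (by exact_mod_cast h8) h5.symm)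
    rw [key]
    ring
  · rw [if_neg h, if_neg]
    exact fun h1 => h ⟨h1.1.symm, h1.2.2, h1.2.1⟩

omit [Fintype V] in
theorem fs_insert (v : V) (b : Bool) (σ : Finset (V × Bool)) : fs (insert (v, b) σ) = insert v (fs σ) := by
  rw [fs, image_insert]
  rfl

theorem Zc_cyc (hz : IsCyc G z m) {ρ τ : Finset (V × Bool)} (hd : Disjoint ρ τ) (hρ : ρ.card + 1 = m)
    (hτ : τ.card = m) : ∑ x ∈ (ρ ∪ τ)ᶜ, Zc G n z m (insert x ρ) τ = 0 := by
  classical
  by_cases h1 : z (fs τ) = 0
  · refine sum_eq_zero fun x _ => ?_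
    unfold Zc
    rw [h1]
    simp
  obtain ⟨c1, e1⟩ := hz.supp _ h1
  have k1 : Con τ := con_of_card (by omega)
  -- the value of a term
  set c : ZMod 2 := ∑ A ∈ Finset.Icc (ss ρ τ) (fs ρ ∪ fs τ), om G n A (fs τ) with hc
  -- the sum over the fibres
  have key : ∀ v : V, ∑ x ∈ (ρ ∪ τ)ᶜ.filter (fun x => x.1 = v), Zc G n z m (insert x ρ) τ =
      if v ∈ fs ρ then 0 else z (insert v (fs ρ)) * z (fs τ) * c := by
    intro v
    have hval : ∀ b, (v, b) ∈ (ρ ∪ τ)ᶜ → Zc G n z m (insert (v, b) ρ) τ =
        z (insert v (fs ρ)) * z (fs τ) * cf G n (insert (v, b) ρ) τ := by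
      intro b hb
      rw [mem_compl, mem_union, not_or] at hb
      unfold Zc
      rw [if_pos, fs_insert]
      refine ⟨?_, ?_, hτ⟩
      · rw [disjoint_insert_left]
        exact ⟨hb.2, hd⟩
      · rw [card_insert_of_notMem hb.1, hρ]
    have hfil : ∀ b, (v, b) ∈ (ρ ∪ τ)ᶜ → (v, !b) ∉ (ρ ∪ τ)ᶜ →
        (ρ ∪ τ)ᶜ.filter (fun x => x.1 = v) = {(v, b)} := by
      intro b h3 h4
      ext ⟨w, b'⟩
      simp only [mem_filter, mem_singleton, Prod.mk.injEq]
      constructor
      · rintro ⟨h5, rfl⟩
        refine ⟨rfl, ?_⟩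
        by_contra h6
        have h7 : b' = !b := by
          cases b <;> cases b' <;> simp_all
        rw [h7] at h5
        exact h4 h5
      · rintro ⟨rfl, rfl⟩
        exact ⟨h3, rfl⟩
    by_cases hv : v ∈ fs ρ
    · rw [if_pos hv]
      refine sum_eq_zero ?_
      rintro ⟨w, b⟩ hx
      rw [mem_filter] at hx
      obtain ⟨hx, rfl⟩ := hx
      rw [hval b hx]
      have h3 : z (insert w (fs ρ)) = 0 := by
        by_contra h4
        have h5 := (hz.supp _ h4).2
        have h6 : insert w (fs ρ) = fs ρ := insert_eq_of_mem hv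
        rw [h6] at h5
        have h7 : (fs ρ).card ≤ ρ.card := card_image_le
        omega
      show z (insert w (fs ρ)) * _ * _ = 0
      rw [h3]; ring
    · rw [if_neg hv]
      have hv1 : (v, true) ∉ ρ := fun h => hv (mem_fs.mpr (Or.inl h))
      have hv2 : (v, false) ∉ ρ := fun h => hv (mem_fs.mpr (Or.inr h))
      by_cases hvτ : v ∈ fs τ
      · -- one sign
        have hu : insert v (fs ρ) ∪ fs τ = fs ρ ∪ fs τ := by
          rw [insert_union]
          exact insert_eq_of_mem (mem_union_right _ hvτ)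
        rcases mem_fs.mp hvτ with h3 | h3
        · -- `(v, true) ∈ τ`
          have h4 : (v, false) ∉ τ := fun h => k1 v ⟨h3, h⟩
          have h5 : (v, false) ∈ (ρ ∪ τ)ᶜ := by
            rw [mem_compl, mem_union, not_or]; exact ⟨hv2, h4⟩
          have h6 : (v, !false) ∉ (ρ ∪ τ)ᶜ := by
            rw [mem_compl, mem_union, not_not]; exact Or.inr h3
          rw [hfil false h5 h6, sum_singleton, hval false h5]
          have h7 : ss (insert (v, false) ρ) τ = ss ρ τ := by
            ext w
            simp only [ss, mem_union, mem_sel, mem_insert, Prod.mk.injEq]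
            constructor
            · rintro ((⟨rfl, _⟩ | h) | h)
              · exact Or.inr h3
              · exact Or.inl h
              · exact Or.inr h
            · tauto
          rw [cf, h7, fs_insert, hu]
        · have h4 : (v, true) ∉ τ := fun h => k1 v ⟨h, h3⟩
          have h5 : (v, true) ∈ (ρ ∪ τ)ᶜ := by
            rw [mem_compl, mem_union, not_or]; exact ⟨hv1, h4⟩
          have h6 : (v, !true) ∉ (ρ ∪ τ)ᶜ := by
            rw [mem_compl, mem_union, not_not]; exact Or.inr h3
          rw [hfil true h5 h6, sum_singleton, hval true h5]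
          have h7 : ss (insert (v, true) ρ) τ = ss ρ τ := by
            ext w
            simp only [ss, mem_union, mem_sel, mem_insert, Prod.mk.injEq]
            constructor
            · rintro ((⟨_, h⟩ | h) | h)
              · exact absurd h (by decide)
              · exact Or.inl h
              · exact Or.inr h
            · tauto
          rw [cf, h7, fs_insert, hu]
      · -- both signs
        have hw1 : (v, true) ∉ τ := fun h => hvτ (mem_fs.mpr (Or.inl h))
        have hw2 : (v, false) ∉ τ := fun h => hvτ (mem_fs.mpr (Or.inr h))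
        have h5 : (v, true) ∈ (ρ ∪ τ)ᶜ := by
          rw [mem_compl, mem_union, not_or]; exact ⟨hv1, hw1⟩
        have h6 : (v, false) ∈ (ρ ∪ τ)ᶜ := by
          rw [mem_compl, mem_union, not_or]; exact ⟨hv2, hw2⟩
        have h7 : (ρ ∪ τ)ᶜ.filter (fun x => x.1 = v) = {(v, true), (v, false)} := by
          ext ⟨w, b⟩
          simp only [mem_filter, mem_insert, mem_singleton, Prod.mk.injEq]
          constructor
          · rintro ⟨_, rfl⟩
            cases b <;> simp
          · rintro (⟨rfl, rfl⟩ | ⟨rfl, rfl⟩)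
            · exact ⟨h5, rfl⟩
            · exact ⟨h6, rfl⟩
        rw [h7, sum_pair (by simp), hval true h5, hval false h6, ← mul_add]
        congr 1
        have h8 : ss (insert (v, true) ρ) τ = ss ρ τ := by
          ext w
          simp only [ss, mem_union, mem_sel, mem_insert, Prod.mk.injEq]
          constructor
          · rintro ((⟨_, h⟩ | h) | h)
            · exact absurd h (by decide)
            · exact Or.inl h
            · exact Or.inr h
          · tauto
        have h9 : ss (insert (v, false) ρ) τ = insert v (ss ρ τ) := by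
          ext w
          simp only [ss, mem_union, mem_sel, mem_insert, Prod.mk.injEq, and_true]
          tauto
        rw [cf, cf, h8, h9, fs_insert, fs_insert, insert_union]
        have hvn : v ∉ fs ρ ∪ fs τ := by
          rw [mem_union, not_or]; exact ⟨hv, hvτ⟩
        have h10 : Finset.Icc (ss ρ τ) (insert v (fs ρ ∪ fs τ)) =
            Finset.Icc (ss ρ τ) (fs ρ ∪ fs τ) ∪ Finset.Icc (insert v (ss ρ τ)) (insert v (fs ρ ∪ fs τ)) := by
          ext A
          simp only [Finset.mem_Icc, mem_union]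
          constructor
          · rintro ⟨h, h'⟩
            by_cases hvA : v ∈ A
            · right
              exact ⟨insert_subset hvA h, h'⟩
            · left
              exact ⟨h, (subset_insert_iff_of_notMem hvA).mp h'⟩
          · rintro (⟨h, h'⟩ | ⟨h, h'⟩)
            · exact ⟨h, h'.trans (subset_insert _ _)⟩
            · exact ⟨(subset_insert _ _).trans h, h'⟩
        have h11 : Disjoint (Finset.Icc (ss ρ τ) (fs ρ ∪ fs τ))
            (Finset.Icc (insert v (ss ρ τ)) (insert v (fs ρ ∪ fs τ))) := by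
          rw [disjoint_left]
          intro A hA hA'
          rw [Finset.mem_Icc] at hA hA'
          exact hvn (hA.2 (hA'.1 (mem_insert_self _ _)))
        rw [h10, sum_union h11, add_assoc, add_self, add_zero]
  have h2 : ∑ x ∈ (ρ ∪ τ)ᶜ, Zc G n z m (insert x ρ) τ =
      ∑ v : V, ∑ x ∈ (ρ ∪ τ)ᶜ.filter (fun x => x.1 = v), Zc G n z m (insert x ρ) τ :=
    (sum_fiberwise _ _ _).symm
  rw [h2, sum_congr rfl fun v _ => key v]
  have h3 : ∑ v : V, (if v ∈ fs ρ then 0 else z (insert v (fs ρ)) * z (fs τ) * c) =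
      ∑ v ∈ (fs ρ)ᶜ, z (insert v (fs ρ)) * z (fs τ) * c := by
    rw [← sum_filter_not_add_sum_filter univ (fun v => v ∈ fs ρ)]
    have h4 : ∑ v ∈ univ.filter (fun v => v ∈ fs ρ),
        (if v ∈ fs ρ then 0 else z (insert v (fs ρ)) * z (fs τ) * c) = 0 := by
      refine sum_eq_zero fun v hv => ?_
      rw [mem_filter] at hv
      rw [if_pos hv.2]
    rw [h4, add_zero]
    refine sum_congr ?_ fun v hv => ?_
    · ext v; simp
    · rw [mem_compl] at hv
      rw [if_neg hv]
  rw [h3, ← sum_mul, ← sum_mul, hz.cyc]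
  ring

end Pool.Agent.H87.Oct
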