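import Pool.Agent.H87.Oct.Cyc

/-!
# Evaluation of the van Kampen class on the cycle
-/

set_option autoImplicit false

namespace Pool.Agent.H87.Oct

open Finset

section rank

variable {α : Type} [DecidableEq α] (κ : α → ℕ)

/-- elements of even rank -/
def ev (U : Finset α) : Finset α := U.filter (fun u => Even (U.filter (fun w => κ w < κ u)).card)

/-- elements of odd rank -/
def od (U : Finset α) : Finset α := U.filter (fun u => ¬ Even (U.filter (fun w => κ w < κ u)).card)

omit [DecidableEq α] in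
theorem ev_subset (U : Finset α) : ev κ U ⊆ U := filter_subset _ _

omit [DecidableEq α] in
theorem od_subset (U : Finset α) : od κ U ⊆ U := filter_subset _ _

theorem ev_union_od (U : Finset α) : ev κ U ∪ od κ U = U := filter_union_filter_not_eq _ U

theorem rank_image {f : α → α} (hf : Function.Injective f) {U : Finset α}
    (hm : ∀ x ∈ U, ∀ y ∈ U, κ (f x) < κ (f y) ↔ κ x < κ y) {u : α} (hu : u ∈ U) :
    ((U.image f).filter (fun w => κ w < κ (f u))).card = (U.filter (fun w => κ w < κ u)).card := by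
  rw [filter_image, card_image_of_injective _ hf]
  congr 1
  refine filter_congr fun w hw => ?_
  exact hm w hw u hu

theorem ev_image {f : α → α} (hf : Function.Injective f) {U : Finset α}
    (hm : ∀ x ∈ U, ∀ y ∈ U, κ (f x) < κ (f y) ↔ κ x < κ y) :
    ev κ (U.image f) = (ev κ U).image f := by
  ext x
  simp only [ev, mem_filter, mem_image]
  constructor
  · rintro ⟨⟨u, hu, rfl⟩, h⟩
    rw [rank_image κ hf hm hu] at h
    exact ⟨u, ⟨hu, h⟩, rfl⟩
  · rintro ⟨u, ⟨hu, h⟩, rfl⟩
    refine ⟨⟨u, hu, rfl⟩, ?_⟩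
    rw [rank_image κ hf hm hu]
    exact h

theorem od_image {f : α → α} (hf : Function.Injective f) {U : Finset α}
    (hm : ∀ x ∈ U, ∀ y ∈ U, κ (f x) < κ (f y) ↔ κ x < κ y) :
    od κ (U.image f) = (od κ U).image f := by
  ext x
  simp only [od, mem_filter, mem_image]
  constructor
  · rintro ⟨⟨u, hu, rfl⟩, h⟩
    rw [rank_image κ hf hm hu] at h
    exact ⟨u, ⟨hu, h⟩, rfl⟩
  · rintro ⟨u, ⟨hu, h⟩, rfl⟩
    refine ⟨⟨u, hu, rfl⟩, ?_⟩
    rw [rank_image κ hf hm hu]
    exact h

end rank

variable {V : Type} [Fintype V] [DecidableEq V]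

/-- the flip of the sign at `v` -/
def fl (v : V) (x : V × Bool) : V × Bool := if x.1 = v then (x.1, !x.2) else x

omit [Fintype V] in
theorem fl_fst (v : V) (x : V × Bool) : (fl v x).1 = x.1 := by
  unfold fl; split_ifs <;> rfl

omit [Fintype V] in
theorem fl_of_ne {v : V} {x : V × Bool} (h : x.1 ≠ v) : fl v x = x := by
  unfold fl; rw [if_neg h]

omit [Fintype V] in
theorem fl_self (v : V) (b : Bool) : fl v (v, b) = (v, !b) := by
  unfold fl; rw [if_pos rfl]

omit [Fintype V] in
theorem fl_fl (v : V) (x : V × Bool) : fl v (fl v x) = x := by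
  by_cases h : x.1 = v
  · obtain ⟨w, b⟩ := x
    simp only at h
    subst h
    rw [fl_self, fl_self, Bool.not_not]
  · rw [fl_of_ne h, fl_of_ne h]

omit [Fintype V] in
theorem fl_inj (v : V) : Function.Injective (fl v) := by
  intro x y h
  rw [← fl_fl v x, h, fl_fl]

omit [Fintype V] in
theorem fs_fl (v : V) (σ : Finset (V × Bool)) : fs (σ.image (fl v)) = fs σ := by
  rw [fs, image_image, fs]
  refine image_congr fun x _ => ?_
  exact fl_fst v x

omit [Fintype V] in
theorem mem_fl {v w : V} {b : Bool} {σ : Finset (V × Bool)} (h : w ≠ v) :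
    (w, b) ∈ σ.image (fl v) ↔ (w, b) ∈ σ := by
  rw [mem_image]
  constructor
  · rintro ⟨x, hx, h1⟩
    have h2 : x.1 = w := by rw [← fl_fst v x, h1]
    rw [fl_of_ne (by rw [h2]; exact h)] at h1
    rw [← h1]; exact hx
  · intro hx
    exact ⟨_, hx, fl_of_ne h⟩

theorem ss_fl {v : V} {σ τ : Finset (V × Bool)} {A : Finset V} (hv : v ∈ A) :
    ss (σ.image (fl v)) (τ.image (fl v)) ⊆ A ↔ ss σ τ ⊆ A := by
  constructor
  · intro h w hw
    by_cases h1 : w = v
    · rw [h1]; exact hv
    · refine h ?_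
      rw [ss, mem_union, mem_sel, mem_sel] at hw ⊢
      rw [mem_fl h1, mem_fl h1]
      exact hw
  · intro h w hw
    by_cases h1 : w = v
    · rw [h1]; exact hv
    · refine h ?_
      rw [ss, mem_union, mem_sel, mem_sel] at hw ⊢
      rw [mem_fl h1, mem_fl h1] at hw
      exact hw

/-- the key -/
def ky (e : V → ℕ) (x : V × Bool) : ℕ := 2 * e x.1 + if x.2 then 0 else 1

omit [Fintype V] [DecidableEq V] in
theorem ky_lt {e : V → ℕ} {x y : V × Bool} (h : e x.1 ≠ e y.1) : ky e x < ky e y ↔ e x.1 < e y.1 := by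
  unfold ky
  split_ifs <;> omega

omit [Fintype V] in
theorem mono_fl {e : V → ℕ} (he : Function.Injective e) {v : V} {U : Finset (V × Bool)}
    (h : ¬ ((v, true) ∈ U ∧ (v, false) ∈ U)) :
    ∀ x ∈ U, ∀ y ∈ U, ky e (fl v x) < ky e (fl v y) ↔ ky e x < ky e y := by
  intro x hx y hy
  by_cases h1 : x.1 = y.1
  · by_cases h2 : x.1 = v
    · have h3 : x = y := by
        obtain ⟨a, b⟩ := x
        obtain ⟨c, d⟩ := y
        simp only at h1 h2
        subst h1
        subst h2
        cases b <;> cases d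
        · rfl
        · exact absurd ⟨hy, hx⟩ h
        · exact absurd ⟨hx, hy⟩ h
        · rfl
      rw [h3]
      simp
    · rw [fl_of_ne h2, fl_of_ne (by rw [← h1]; exact h2)]
  · have h2 : e x.1 ≠ e y.1 := fun h3 => h1 (he h3)
    rw [ky_lt h2, ky_lt (by rw [fl_fst, fl_fst]; exact h2), fl_fst, fl_fst]

variable (G : SimpleGraph V) (n z : Finset V → ZMod 2) (m : ℕ)

open Classical in
/-- the terms -/
noncomputable def tm (σ τ : Finset (V × Bool)) (A : Finset V) : ZMod 2 :=
  if Disjoint σ τ ∧ σ.card = m ∧ τ.card = m ∧ ss σ τ ⊆ A ∧ A ⊆ fs σ ∪ fs τ then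
    z (fs σ) * z (fs τ) * om G n A (fs τ) else 0

variable {G n z m}

theorem Zc_eq_sum (σ τ : Finset (V × Bool)) : Zc G n z m σ τ = ∑ A : Finset V, tm G n z m σ τ A := by
  classical
  unfold Zc
  split_ifs with h
  · rw [cf, mul_sum]
    symm
    rw [← sum_subset (subset_univ (Finset.Icc (ss σ τ) (fs σ ∪ fs τ)))]
    · refine sum_congr rfl fun A hA => ?_
      rw [Finset.mem_Icc] at hA
      unfold tm
      rw [if_pos ⟨h.1, h.2.1, h.2.2, hA.1, hA.2⟩]
    · intro A _ hA
      rw [Finset.mem_Icc] at hA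
      unfold tm
      rw [if_neg]
      rintro ⟨_, _, _, h1, h2⟩
      exact hA ⟨h1, h2⟩
  · symm
    refine sum_eq_zero fun A _ => ?_
    unfold tm
    rw [if_neg]
    rintro ⟨h1, h2, h3, _⟩
    exact h ⟨h1, h2, h3⟩

theorem tm_fl {v : V} {σ τ : Finset (V × Bool)} {A : Finset V} (hv : v ∈ A) :
    tm G n z m (σ.image (fl v)) (τ.image (fl v)) A = tm G n z m σ τ A := by
  classical
  have h : (Disjoint (σ.image (fl v)) (τ.image (fl v)) ∧ (σ.image (fl v)).card = m ∧
      (τ.image (fl v)).card = m ∧ ss (σ.image (fl v)) (τ.image (fl v)) ⊆ A ∧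
      A ⊆ fs (σ.image (fl v)) ∪ fs (τ.image (fl v))) ↔
      (Disjoint σ τ ∧ σ.card = m ∧ τ.card = m ∧ ss σ τ ⊆ A ∧ A ⊆ fs σ ∪ fs τ) := by
    rw [disjoint_image (fl_inj v), card_image_of_injective _ (fl_inj v),
      card_image_of_injective _ (fl_inj v), ss_fl hv, fs_fl, fs_fl]
  unfold tm
  by_cases h2 : Disjoint σ τ ∧ σ.card = m ∧ τ.card = m ∧ ss σ τ ⊆ A ∧ A ⊆ fs σ ∪ fs τ
  · rw [if_pos (h.mpr h2), if_pos h2, fs_fl, fs_fl]
  · rw [if_neg (fun h3 => h2 (h.mp h3)), if_neg h2]

/-- Evaluation. -/
theorem eval (hz : IsCyc G z m) (hn : ∀ A : Finset V, A.card < m → n A = 0) {e : V → ℕ}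
    (he : Function.Injective e) :
    ∑ U ∈ powersetCard (2 * m) univ, Zc G n z m (ev (ky e) U) (od (ky e) U) = ∑ T : Finset V, z T * n T := by
  classical
  set κ := ky e with hκ
  simp only [Zc_eq_sum]
  rw [← sum_product']
  set P := (powersetCard (2 * m) (univ : Finset (V × Bool))) ×ˢ (univ : Finset (Finset V)) with hP
  set Q : Finset (V × Bool) × Finset V → Prop := fun p => p.2 ⊆ fs (ev κ p.1) ∩ fs (od κ p.1) with hQ
  rw [← sum_filter_add_sum_filter_not P Q]
  -- the second part cancels
  have h2 : ∑ p ∈ P.filter (fun p => ¬ Q p), tm G n z m (ev κ p.1) (od κ p.1) p.2 = 0 := by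
    rw [← sum_filter_ne_zero]
    set R := (P.filter (fun p => ¬ Q p)).filter
      (fun p => tm G n z m (ev κ p.1) (od κ p.1) p.2 ≠ 0) with hR
    -- the vertex
    have hex : ∀ p : Finset (V × Bool) × Finset V, ¬ Q p →
        ∃ v ∈ p.2 \ (fs (ev κ p.1) ∩ fs (od κ p.1)), True := by
      intro p hp
      obtain ⟨v, hv, hv2⟩ := not_subset.mp hp
      exact ⟨v, mem_sdiff.mpr ⟨hv, hv2⟩, trivial⟩
    set pick : Finset V → V → V := fun S v => if h : S.Nonempty then h.choose else v with hpick
    have hpick2 : ∀ (S : Finset V) (v : V), S.Nonempty → pick S v ∈ S := by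
      intro S v h
      rw [hpick]
      simp only
      rw [dif_pos h]
      exact h.choose_spec
    set D : Finset (V × Bool) × Finset V → Finset V :=
      fun p => p.2 \ (fs (ev κ p.1) ∩ fs (od κ p.1)) with hD
    rcases isEmpty_or_nonempty V with hV | ⟨⟨v0⟩⟩
    · refine sum_eq_zero fun p hp => ?_
      rw [hR, mem_filter, mem_filter] at hp
      obtain ⟨v, _, _⟩ := hex p hp.1.2
      exact (hV.false v).elim
    -- properties of the flip
    have hfl : ∀ p ∈ R, let v := pick (D p) v0
        v ∈ p.2 ∧ ¬ ((v, true) ∈ p.1 ∧ (v, false) ∈ p.1) ∧ ((v, true) ∈ p.1 ∨ (v, false) ∈ p.1) := by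
      intro p hp v
      rw [hR, mem_filter, mem_filter] at hp
      have hvD : v ∈ D p := by
        obtain ⟨w, hw, _⟩ := hex p hp.1.2
        exact hpick2 _ _ ⟨w, hw⟩
      rw [hD, mem_sdiff, mem_inter] at hvD
      have h3 := hp.2
      unfold tm at h3
      split_ifs at h3 with h4
      · obtain ⟨a1, a2, a3, a4, a5⟩ := h4
        have z1 : z (fs (ev κ p.1)) ≠ 0 := fun h => h3 (by rw [h]; ring)
        have z2 : z (fs (od κ p.1)) ≠ 0 := fun h => h3 (by rw [h]; ring)
        have k1 : Con (ev κ p.1) := con_of_card (by rw [(hz.supp _ z1).2]; omega)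
        have k2 : Con (od κ p.1) := con_of_card (by rw [(hz.supp _ z2).2]; omega)
        have h5 := a5 hvD.1
        have hU := ev_union_od κ p.1
        refine ⟨hvD.1, ?_, ?_⟩
        · rintro ⟨b1, b2⟩
          rw [← hU, mem_union] at b1 b2
          have h6 := hvD.2
          rw [mem_fs, mem_fs] at h6
          have := k1 v
          have := k2 v
          tauto
        · rw [mem_union, mem_fs, mem_fs] at h5
          rcases h5 with (h | h) | (h | h)
          · exact Or.inl (ev_subset κ _ h)
          · exact Or.inr (ev_subset κ _ h)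
          · exact Or.inl (od_subset κ _ h)
          · exact Or.inr (od_subset κ _ h)
      · exact absurd rfl h3
    have hev : ∀ p ∈ R, ev κ (p.1.image (fl (pick (D p) v0))) = (ev κ p.1).image (fl (pick (D p) v0)) ∧
        od κ (p.1.image (fl (pick (D p) v0))) = (od κ p.1).image (fl (pick (D p) v0)) := by
      intro p hp
      have h3 := mono_fl he (hfl p hp).2.1
      exact ⟨ev_image κ (fl_inj _) h3, od_image κ (fl_inj _) h3⟩
    have hDfl : ∀ p ∈ R, D (p.1.image (fl (pick (D p) v0)), p.2) = D p := by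
      intro p hp
      rw [hD]
      simp only
      rw [(hev p hp).1, (hev p hp).2, fs_fl, fs_fl]
    have htm : ∀ p ∈ R, tm G n z m (ev κ (p.1.image (fl (pick (D p) v0))))
        (od κ (p.1.image (fl (pick (D p) v0)))) p.2 = tm G n z m (ev κ p.1) (od κ p.1) p.2 := by
      intro p hp
      rw [(hev p hp).1, (hev p hp).2, tm_fl (hfl p hp).1]
    refine sum_involution (fun p _ => (p.1.image (fl (pick (D p) v0)), p.2)) ?_ ?_ ?_ ?_
    · intro p hp
      simp only
      rw [htm p hp, add_self]
    · intro p hp _ h3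
      have h4 := hfl p hp
      set v := pick (D p) v0
      have h5 : p.1.image (fl v) = p.1 := congrArg Prod.fst h3
      have h6 : ∀ b, (v, b) ∈ p.1 → (v, !b) ∈ p.1 := by
        intro b hb
        rw [← h5, ← fl_self]
        exact mem_image_of_mem _ hb
      rcases h4.2.2 with h7 | h7
      · exact h4.2.1 ⟨h7, h6 true h7⟩
      · exact h4.2.1 ⟨h6 false h7, h7⟩
    · intro p hp
      have h3 := hp
      rw [hR, mem_filter, mem_filter, hP, mem_product, mem_powersetCard] at h3 ⊢
      simp only
      refine ⟨⟨⟨⟨subset_univ _, ?_⟩, mem_univ _⟩, ?_⟩, ?_⟩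
      · rw [card_image_of_injective _ (fl_inj _)]
        exact h3.1.1.1.2
      · intro h4
        refine h3.1.2 ?_
        rw [hQ] at h4 ⊢
        simp only at h4 ⊢
        rw [(hev p hp).1, (hev p hp).2, fs_fl, fs_fl] at h4
        exact h4
      · rw [htm p hp]
        exact h3.2
    · intro p hp
      simp only
      rw [hDfl p hp, image_image]
      have h3 : (fl (pick (D p) v0) ∘ fl (pick (D p) v0)) = (id : V × Bool → V × Bool) := by
        funext x
        exact fl_fl _ x
      rw [h3, image_id]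
  rw [h2, add_zero]
  -- the first part
  symm
  have hprod : ∀ T : Finset V, ∀ v b, (v, b) ∈ T ×ˢ (univ : Finset Bool) ↔ v ∈ T := by
    intro T v b
    simp
  -- ranks in `T × Bool`
  have hrank : ∀ (T : Finset V) (v : V) (b : Bool), v ∈ T →
      (Even ((T ×ˢ (univ : Finset Bool)).filter (fun w => κ w < κ (v, b))).card ↔ b = true) := by
    intro T v b hv
    have h3 : (T ×ˢ (univ : Finset Bool)).filter (fun w => κ w < κ (v, b)) =
        (T.filter (fun w => e w < e v)) ×ˢ (univ : Finset Bool) ∪ (if b = true then ∅ else {(v, true)}) := by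
      ext ⟨w, c⟩
      simp only [mem_filter, mem_product, mem_univ, and_true, mem_union]
      by_cases hw : w = v
      · subst hw
        cases b <;> cases c <;> simp [hκ, ky, hv]
      · have h4 : e w ≠ e v := fun h => hw (he h)
        rw [hκ, ky_lt (by exact h4)]
        cases b <;> simp [hw]
    rw [h3, card_union_of_disjoint, card_product]
    · cases b
      · simp
      · simp
    · cases b
      · simp
      · simp
  have hevT : ∀ T : Finset V, ev κ (T ×ˢ (univ : Finset Bool)) = T.image (fun v => (v, true)) := by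
    intro T
    ext ⟨v, b⟩
    simp only [ev, mem_filter, mem_image, Prod.mk.injEq]
    constructor
    · rintro ⟨h3, h4⟩
      have h5 := (hprod T v b).mp h3
      exact ⟨v, h5, rfl, ((hrank T v b h5).mp h4).symm⟩
    · rintro ⟨w, h3, rfl, rfl⟩
      exact ⟨(hprod T _ _).mpr h3, (hrank T _ _ h3).mpr rfl⟩
  have hodT : ∀ T : Finset V, od κ (T ×ˢ (univ : Finset Bool)) = T.image (fun v => (v, false)) := by
    intro T
    ext ⟨v, b⟩
    simp only [od, mem_filter, mem_image, Prod.mk.injEq]
    constructor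
    · rintro ⟨h3, h4⟩
      have h5 := (hprod T v b).mp h3
      rw [hrank T v b h5] at h4
      refine ⟨v, h5, rfl, ?_⟩
      cases b
      · rfl
      · exact absurd rfl h4
    · rintro ⟨w, h3, rfl, rfl⟩
      refine ⟨(hprod T _ _).mpr h3, ?_⟩
      rw [hrank T _ _ h3]
      decide
  have hfsb : ∀ (T : Finset V) (b : Bool), fs (T.image (fun v => (v, b))) = T := by
    intro T b
    ext v
    simp [fs]
  have hssT : ∀ T : Finset V, ss (ev κ (T ×ˢ (univ : Finset Bool))) (od κ (T ×ˢ (univ : Finset Bool))) = ∅ := by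
    intro T
    rw [hevT, hodT, ss]
    ext v
    simp [mem_sel]
  have hfin : ∀ T : Finset V, z T * n T ≠ 0 → T.card = m ∧ G.IsClique (T : Set V) := by
    intro T h
    have h3 : z T ≠ 0 := fun h4 => h (by rw [h4]; ring)
    exact ⟨(hz.supp _ h3).2, (hz.supp _ h3).1⟩
  have htmT : ∀ T : Finset V, T.card = m → G.IsClique (T : Set V) →
      tm G n z m (ev κ (T ×ˢ (univ : Finset Bool))) (od κ (T ×ˢ (univ : Finset Bool))) T = z T * n T := by
    intro T h3 h4
    unfold tm
    rw [if_pos, hevT, hodT, hfsb, hfsb, om_clique h4]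
    · have : z T * z T = z T := by
        have : ∀ a : ZMod 2, a * a = a := by decide
        exact this _
      rw [this]
    · refine ⟨?_, ?_, ?_, ?_, ?_⟩
      · rw [hevT, hodT, disjoint_left]
        rintro ⟨v, b⟩ h5 h6
        simp only [mem_image, Prod.mk.injEq] at h5 h6
        obtain ⟨_, _, _, rfl⟩ := h5
        obtain ⟨_, _, _, h6⟩ := h6
        exact absurd h6 (by decide)
      · rw [hevT, card_image_of_injective _ (fun a b h => (Prod.mk.inj h).1), h3]
      · rw [hodT, card_image_of_injective _ (fun a b h => (Prod.mk.inj h).1), h3]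
      · rw [hssT]; exact empty_subset _
      · rw [hevT, hodT, hfsb, hfsb, union_self]
  rw [← sum_filter_ne_zero]
  refine sum_of_injOn (fun T => (T ×ˢ (univ : Finset Bool), T)) ?_ ?_ ?_ ?_
  · intro T _ T' _ h
    exact congrArg Prod.snd h
  · intro T hT
    rw [mem_coe, mem_filter] at hT
    obtain ⟨h3, h4⟩ := hfin T hT.2
    rw [mem_coe, mem_filter, hP, mem_product, mem_powersetCard]
    refine ⟨⟨⟨subset_univ _, ?_⟩, mem_univ _⟩, ?_⟩
    · rw [card_product, h3, card_univ, Fintype.card_bool, mul_comm]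
    · rw [hQ]
      simp only
      rw [hevT, hodT, hfsb, hfsb, inter_self]
  · rintro ⟨U, A⟩ hp hne
    by_contra h3
    apply hne
    rw [mem_filter, hP, mem_product, mem_powersetCard] at hp
    have hA : A ⊆ fs (ev κ U) ∩ fs (od κ U) := hp.2
    have h3' := h3
    unfold tm at h3
    split_ifs at h3 with h4
    · obtain ⟨a1, a2, a3, a4, a5⟩ := h4
      simp only at h3 a2 a3
      have z1 : z (fs (ev κ U)) ≠ 0 := fun h => h3 (by rw [h]; ring)
      have z2 : z (fs (od κ U)) ≠ 0 := fun h => h3 (by rw [h]; ring)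
      obtain ⟨c1, d1⟩ := hz.supp _ z1
      obtain ⟨c2, d2⟩ := hz.supp _ z2
      have hAc : G.IsClique (A : Set V) := c1.subset (by
        exact_mod_cast hA.trans inter_subset_left)
      rw [om_clique hAc] at h3
      have hnA : n A ≠ 0 := fun h => h3 (by rw [h]; ring)
      have hAm : ¬ A.card < m := fun h => hnA (hn A h)
      have e1 : A = fs (ev κ U) := eq_of_subset_of_card_le (hA.trans inter_subset_left) (by omega)
      have e2 : A = fs (od κ U) := eq_of_subset_of_card_le (hA.trans inter_subset_right) (by omega)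
      have e3 : U ⊆ A ×ˢ (univ : Finset Bool) := by
        intro x hx
        rw [← ev_union_od κ U, mem_union] at hx
        rw [mem_product]
        refine ⟨?_, mem_univ _⟩
        rcases hx with hx | hx
        · rw [e1]; exact mem_image_of_mem _ hx
        · rw [e2]; exact mem_image_of_mem _ hx
      have e4 : U = A ×ˢ (univ : Finset Bool) := by
        refine eq_of_subset_of_card_le e3 ?_
        rw [card_product, card_univ, Fintype.card_bool, hp.1.1.2]
        have h5 : A.card = m := by rw [e1]; exact d1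
        omega
      refine ⟨A, ?_, ?_⟩
      · rw [mem_coe, mem_filter]
        refine ⟨mem_univ _, ?_⟩
        rw [← htmT A (by rw [e1]; exact d1) hAc, ← e4]
        exact h3'
      · simp only
        rw [← e4]
    · exact absurd rfl h3
  · intro T hT
    rw [mem_filter] at hT
    obtain ⟨h3, h4⟩ := hfin T hT.2
    exact (htmT T h3 h4).symm

end Pool.Agent.H87.Oct
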