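import Pool.Agent.H87.Oct.Eval
import Pool.Graph.R_seed8.R782.Bal.Ex

/-!
# Nonvanishing of the van Kampen obstruction of octahedralizations
-/

set_option autoImplicit false

namespace Pool.Agent.H87.Oct

open Finset Pool.Agent.W555.KS Pool.Agent.R782.Bal

section transfer

variable {α : Type} [DecidableEq α] {k : ℕ} (e : α ≃ Fin k) (κ : α → ℕ)

omit [DecidableEq α] in
theorem rank_map (he : ∀ x y, κ x < κ y ↔ e x < e y) (U : Finset (Fin k)) (u : Fin k) :
    ((U.map e.symm.toEmbedding).filter (fun w => κ w < κ (e.symm u))).card =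
      (U.filter (fun w => w < u)).card := by
  rw [filter_map, card_map]
  congr 1
  refine filter_congr fun w _ => ?_
  simp only [Function.comp_apply, Equiv.coe_toEmbedding]
  rw [he, e.apply_symm_apply, e.apply_symm_apply]

omit [DecidableEq α] in
theorem even_map (he : ∀ x y, κ x < κ y ↔ e x < e y) (U : Finset (Fin k)) :
    (evenPart U).map e.symm.toEmbedding = ev κ (U.map e.symm.toEmbedding) := by
  ext x
  obtain ⟨u, rfl⟩ := e.symm.surjective x
  simp only [evenPart, ev, mem_filter]
  rw [rank_map e κ he]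
  simp

omit [DecidableEq α] in
theorem odd_map (he : ∀ x y, κ x < κ y ↔ e x < e y) (U : Finset (Fin k)) :
    (oddPart U).map e.symm.toEmbedding = od κ (U.map e.symm.toEmbedding) := by
  ext x
  obtain ⟨u, rfl⟩ := e.symm.surjective x
  simp only [oddPart, od, mem_filter]
  rw [rank_map e κ he]
  simp

end transfer

variable {V : Type} [Fintype V] [DecidableEq V]

omit [DecidableEq V] in
theorem exists_order : ∃ (e0 : V → ℕ) (k : ℕ) (e : V × Bool ≃ Fin k), Function.Injective e0 ∧
    ∀ x, ((e x : Fin k) : ℕ) = ky e0 x := by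
  refine ⟨fun v => (Fintype.equivFin V v : ℕ), Fintype.card V * 2,
    ((Fintype.equivFin V).prodCongr (finTwoEquiv.trans Equiv.boolNot).symm).trans finProdFinEquiv, ?_, ?_⟩
  · intro a b h
    exact (Fintype.equivFin V).injective (Fin.ext h)
  · rintro ⟨v, b⟩
    cases b
    · simp [finProdFinEquiv, ky, finTwoEquiv]
      omega
    · simp [finProdFinEquiv, ky, finTwoEquiv]

theorem not_obs {G : SimpleGraph V} {n z : Finset V → ZMod 2} {m : ℕ} (hz : IsCyc G z m)
    (hn : ∀ A : Finset V, G.IsClique (A : Set V) → ∑ B ∈ A.ssubsets, n B = 0)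
    (hn2 : ∀ A : Finset V, A.card < m → n A = 0) (h1 : ∑ T : Finset V, z T * n T = 1) :
    ¬ Obs (oct G) (2 * m) := by
  classical
  intro hO
  obtain ⟨e0, k, e, he0, he⟩ := exists_order (V := V)
  have hlt : ∀ x y, ky e0 x < ky e0 y ↔ e x < e y := by
    intro x y
    rw [← he x, ← he y, Fin.lt_def]
  have h := hO k e (ZMod 2)
    (fun σ τ => Zc G n z m (σ.map e.symm.toEmbedding) (τ.map e.symm.toEmbedding))
    (fun σ τ => Zc_symm hz hn _ _)
  have hcl : ∀ σ : Finset (Fin k), (σ.map e.symm.toEmbedding).card = m →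
      z (fs (σ.map e.symm.toEmbedding)) ≠ 0 → σ ∈ clF (oct G) e := by
    intro σ h2 h3
    rw [mem_clF]
    obtain ⟨c1, e1⟩ := hz.supp _ h3
    set σ' := σ.map e.symm.toEmbedding
    have h4 : (σ'.image Prod.fst).card = σ'.card := by
      have : fs σ' = σ'.image Prod.fst := rfl
      rw [← this, e1, h2]
    have h5 := Finset.card_image_iff.mp h4
    intro x hx y hy hxy
    show G.Adj x.1 y.1
    refine c1 ?_ ?_ ?_
    · exact_mod_cast mem_image_of_mem Prod.fst hx
    · exact_mod_cast mem_image_of_mem Prod.fst hy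
    · exact fun h6 => hxy (h5 hx hy h6)
  have hA := h ?_ ?_
  · have h2 : ∑ U ∈ powersetCard (2 * m) (univ : Finset (Fin k)),
        Zc G n z m ((evenPart U).map e.symm.toEmbedding) ((oddPart U).map e.symm.toEmbedding) =
        ∑ U ∈ powersetCard (2 * m) (univ : Finset (V × Bool)),
          Zc G n z m (ev (ky e0) U) (od (ky e0) U) := by
      refine sum_bij (fun U _ => U.map e.symm.toEmbedding) ?_ ?_ ?_ ?_
      · intro U hU
        rw [mem_powersetCard] at hU ⊢
        exact ⟨subset_univ _, by rw [card_map]; exact hU.2⟩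
      · intro U _ U' _ hUU
        exact map_injective _ hUU
      · intro U hU
        refine ⟨U.map e.toEmbedding, ?_, ?_⟩
        · rw [mem_powersetCard] at hU ⊢
          exact ⟨subset_univ _, by rw [card_map]; exact hU.2⟩
        · rw [map_map]
          ext x
          simp
      · intro U _
        rw [even_map e _ hlt, odd_map e _ hlt]
    rw [h2, eval hz hn2 he0, h1] at hA
    exact one_ne_zero hA
  · intro σ τ h2
    obtain ⟨_, b1, b2, b3, b4⟩ := Zc_ne h2
    exact ⟨hcl σ b1 b3, hcl τ b2 b4⟩
  · intro ρ τ hd hc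
    have hins : ∀ (v : Fin k) (ρ : Finset (Fin k)), (insert v ρ).map e.symm.toEmbedding =
        insert (e.symm v) (ρ.map e.symm.toEmbedding) := by
      intro v ρ
      rw [map_insert]
      rfl
    have hd' : Disjoint (ρ.map e.symm.toEmbedding) (τ.map e.symm.toEmbedding) :=
      (disjoint_map _).mpr hd
    have hsum : ∀ (ρ τ : Finset (Fin k)) (f : V × Bool → ZMod 2),
        ∑ v ∈ (ρ ∪ τ)ᶜ, f (e.symm v) = ∑ x ∈ (ρ.map e.symm.toEmbedding ∪ τ.map e.symm.toEmbedding)ᶜ, f x := by
      intro ρ τ f
      refine sum_bij (fun v _ => e.symm v) ?_ ?_ ?_ ?_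
      · intro v hv
        rw [mem_compl, mem_union, not_or] at hv ⊢
        constructor
        · rw [mem_map_equiv]; simpa using hv.1
        · rw [mem_map_equiv]; simpa using hv.2
      · intro a _ b _ hab
        exact e.symm.injective hab
      · intro x hx
        rw [mem_compl, mem_union, not_or, mem_map_equiv, mem_map_equiv] at hx
        refine ⟨e x, ?_, e.symm_apply_apply x⟩
        rw [mem_compl, mem_union, not_or]
        simpa using hx
      · intro a _
        rfl
    simp only [hins]
    rw [sum_add_distrib]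
    have hzero : ∀ (σ τ : Finset (V × Bool)), ¬ (σ.card = m ∧ τ.card = m) → Zc G n z m σ τ = 0 := by
      intro σ τ h2
      by_contra h3
      obtain ⟨_, b1, b2, _⟩ := Zc_ne h3
      exact h2 ⟨b1, b2⟩
    by_cases hτ : τ.card = m
    · have hρ : ρ.card + 1 = m := by omega
      rw [hsum ρ τ (fun x => Zc G n z m (insert x (ρ.map e.symm.toEmbedding)) (τ.map e.symm.toEmbedding)),
        Zc_cyc hz hd' (by rw [card_map]; exact hρ) (by rw [card_map]; exact hτ), zero_add]
      refine sum_eq_zero fun v _ => hzero _ _ ?_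
      rw [card_map]
      omega
    · by_cases hρ : ρ.card = m
      · have hτ' : τ.card + 1 = m := by omega
        have h3 : ∑ v ∈ (ρ ∪ τ)ᶜ, Zc G n z m (insert (e.symm v) (ρ.map e.symm.toEmbedding))
            (τ.map e.symm.toEmbedding) = 0 := by
          refine sum_eq_zero fun v _ => hzero _ _ fun h4 => hτ ?_
          rw [← h4.2, card_map]
        rw [h3, zero_add, hsum ρ τ (fun x => Zc G n z m (ρ.map e.symm.toEmbedding)
          (insert x (τ.map e.symm.toEmbedding)))]
        rw [union_comm]
        rw [sum_congr rfl fun x _ => Zc_symm hz hn (ρ.map e.symm.toEmbedding)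
          (insert x (τ.map e.symm.toEmbedding))]
        exact Zc_cyc hz hd'.symm (by rw [card_map]; exact hτ') (by rw [card_map]; exact hρ)
      · have h3 : ∀ v, Zc G n z m (insert (e.symm v) (ρ.map e.symm.toEmbedding))
            (τ.map e.symm.toEmbedding) = 0 := by
          intro v
          refine hzero _ _ fun h4 => hτ ?_
          rw [← h4.2, card_map]
        have h4 : ∀ v, Zc G n z m (ρ.map e.symm.toEmbedding)
            (insert (e.symm v) (τ.map e.symm.toEmbedding)) = 0 := by
          intro v
          refine hzero _ _ fun h5 => hρ ?_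
          rw [← h5.1, card_map]
        rw [sum_eq_zero fun v _ => h3 v, sum_eq_zero fun v _ => h4 v, add_zero]

end Pool.Agent.H87.Oct
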