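import Mathlib

/-!
# The coefficients `om`
-/

set_option autoImplicit false

namespace Pool.Agent.H87.Oct

open Finset

section icc

variable {V : Type} [DecidableEq V]

theorem two_eq_zero : (2 : ZMod 2) = 0 := by decide

theorem add_self (a : ZMod 2) : a + a = 0 := CharTwo.add_self_eq_zero a

/-- the number of sets between `T` and `U` mod 2 -/
theorem card_Icc_mod {T U : Finset V} (h : T ⊆ U) :
    ((Finset.Icc T U).card : ZMod 2) = if T = U then 1 else 0 := by
  rw [Finset.card_Icc_finset h]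
  split_ifs with h1
  · subst h1
    simp
  · have h2 : T.card < U.card := Finset.card_lt_card (Finset.ssubset_iff_subset_ne.mpr ⟨h, h1⟩)
    have h3 : U.card - T.card ≠ 0 := by omega
    rw [Nat.cast_pow]
    have h4 : ((2 : ℕ) : ZMod 2) = 0 := by decide
    rw [h4, zero_pow h3]

theorem sum_Icc_eq {f g : Finset V → ZMod 2} {S U : Finset V}
    (h : ∀ A, A ⊆ U → f A = ∑ B ∈ A.powerset, g B) (hS : S ⊆ U) :
    ∑ A ∈ Finset.Icc S U, f A = ∑ B ∈ Finset.Icc (U \ S) U, g B := by
  have h1 : ∑ A ∈ Finset.Icc S U, f A =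
      ∑ A ∈ Finset.Icc S U, ∑ B ∈ U.powerset, if B ⊆ A then g B else 0 := by
    refine sum_congr rfl fun A hA => ?_
    rw [Finset.mem_Icc] at hA
    rw [h A hA.2, ← sum_filter]
    refine sum_congr ?_ fun _ _ => rfl
    ext B
    simp only [mem_powerset, mem_filter]
    constructor
    · intro h2
      exact ⟨h2.trans hA.2, h2⟩
    · exact fun h2 => h2.2
  rw [h1, sum_comm]
  have h2 : ∀ B ∈ U.powerset, (∑ A ∈ Finset.Icc S U, if B ⊆ A then g B else 0) =
      if U \ S ⊆ B then g B else 0 := by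
    intro B hB
    rw [mem_powerset] at hB
    rw [← sum_filter, sum_const, nsmul_eq_mul]
    have h3 : (Finset.Icc S U).filter (fun A => B ⊆ A) = Finset.Icc (S ∪ B) U := by
      ext A
      simp only [mem_filter, Finset.mem_Icc, union_subset_iff]
      tauto
    rw [h3, card_Icc_mod (union_subset hS hB)]
    have h4 : S ∪ B = U ↔ U \ S ⊆ B := by
      constructor
      · intro h5
        rw [← h5]
        intro x hx
        rw [mem_sdiff, mem_union] at hx
        tauto
      · intro h5
        refine subset_antisymm (union_subset hS hB) fun x hx => ?_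
        rw [mem_union]
        by_cases h6 : x ∈ S
        · exact Or.inl h6
        · exact Or.inr (h5 (mem_sdiff.mpr ⟨hx, h6⟩))
    by_cases h5 : S ∪ B = U
    · rw [if_pos h5, if_pos (h4.mp h5), one_mul]
    · rw [if_neg h5, if_neg (fun h6 => h5 (h4.mpr h6)), zero_mul]
  rw [sum_congr rfl h2, ← sum_filter]
  refine sum_congr ?_ fun _ _ => rfl
  ext B
  simp only [mem_filter, mem_powerset, Finset.mem_Icc]
  tauto

theorem sum_ssub_ssub (g : Finset V → ZMod 2) (A : Finset V) :
    ∑ B ∈ A.ssubsets, ∑ C ∈ B.powerset, g C = ∑ C ∈ A.ssubsets, g C := by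
  have h1 : ∑ B ∈ A.powerset, ∑ C ∈ B.powerset, g C = g A := by
    have h2 := sum_Icc_eq (f := fun A => ∑ B ∈ A.powerset, g B) (g := g) (S := ∅) (U := A)
      (fun _ _ => rfl) (empty_subset _)
    rw [sdiff_empty, Finset.Icc_self, sum_singleton] at h2
    rw [← h2]
    refine sum_congr ?_ fun _ _ => rfl
    ext B
    simp
  have h3 : ∀ f : Finset V → ZMod 2, ∑ B ∈ A.powerset, f B = f A + ∑ B ∈ A.ssubsets, f B := by
    intro f
    rw [Finset.ssubsets, ← Finset.add_sum_erase _ _ (mem_powerset_self A)]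
  rw [h3, h3] at h1
  have h4 : g A + (∑ C ∈ A.ssubsets, g C + ∑ B ∈ A.ssubsets, ∑ C ∈ B.powerset, g C) = g A := by
    rw [← add_assoc]; exact h1
  have h5 : ∑ C ∈ A.ssubsets, g C + ∑ B ∈ A.ssubsets, ∑ C ∈ B.powerset, g C = 0 := by
    exact left_eq_add.mp h4.symm
  exact (CharTwo.add_eq_zero.mp h5).symm

end icc

section om

variable {V : Type} [Fintype V] [DecidableEq V]

/-- `u` has a non-neighbour in `A` -/
def Bad (G : SimpleGraph V) (A : Finset V) (u : V) : Prop :=
  u ∈ A ∧ ∃ w ∈ A, w ≠ u ∧ ¬ G.Adj u w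

omit [Fintype V] [DecidableEq V] in
theorem bad_iff {G : SimpleGraph V} {A : Finset V} : (∃ u, Bad G A u) ↔ ¬ G.IsClique (A : Set V) := by
  constructor
  · rintro ⟨u, h1, w, h2, h3, h4⟩ hc
    exact h4 (hc h1 h2 h3.symm)
  · intro h
    rw [SimpleGraph.IsClique, Set.Pairwise] at h
    push Not at h
    obtain ⟨u, h1, w, h2, h3, h4⟩ := h
    exact ⟨u, h1, w, h2, h3.symm, h4⟩

open Classical in
/-- the coefficients -/
noncomputable def om (G : SimpleGraph V) (n : Finset V → ZMod 2) (A : Finset V) : Finset V → ZMod 2 :=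
  Finset.strongInduction (p := fun _ => Finset V → ZMod 2) (fun A ih P =>
    if h : ∃ u, Bad G A u then
      if h.choose ∈ P then ∑ B ∈ A.ssubsets.attach, ih B.1 (mem_ssubsets.mp B.2) Pᶜ else 0
    else n A) A

variable {G : SimpleGraph V} {n : Finset V → ZMod 2}

theorem om_clique {A : Finset V} (h : G.IsClique (A : Set V)) (P : Finset V) : om G n A P = n A := by
  rw [om, Finset.strongInduction_eq, dif_neg]
  rw [bad_iff]
  exact fun h1 => h1 h

open Classical in
theorem om_bad {A : Finset V} (h : ¬ G.IsClique (A : Set V)) :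
    ∃ u, Bad G A u ∧ ∀ P, om G n A P = if u ∈ P then ∑ B ∈ A.ssubsets, om G n B Pᶜ else 0 := by
  have h1 := bad_iff.mpr h
  refine ⟨h1.choose, h1.choose_spec, fun P => ?_⟩
  rw [om, Finset.strongInduction_eq, dif_pos h1]
  split_ifs with h2
  · rw [← sum_attach A.ssubsets]
    rfl
  · rfl

omit [Fintype V] in
theorem sum_powerset_eq (A : Finset V) (f : Finset V → ZMod 2) :
    ∑ B ∈ A.powerset, f B = f A + ∑ B ∈ A.ssubsets, f B := by
  rw [Finset.ssubsets, ← Finset.add_sum_erase _ _ (mem_powerset_self A)]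

/-- the functional equation -/
theorem om_sum (hn : ∀ A : Finset V, G.IsClique (A : Set V) → ∑ B ∈ A.ssubsets, n B = 0) (A : Finset V) :
    ∀ P : Finset V, om G n A P = ∑ B ∈ A.powerset, om G n B Pᶜ := by
  induction A using Finset.strongInduction with
  | H A ih =>
    intro P
    rw [sum_powerset_eq]
    by_cases hc : G.IsClique (A : Set V)
    · rw [om_clique hc, om_clique hc]
      have h1 : ∑ B ∈ A.ssubsets, om G n B Pᶜ = ∑ B ∈ A.ssubsets, n B := by
        refine sum_congr rfl fun B hB => om_clique ?_ _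
        exact hc.subset (by exact_mod_cast (mem_ssubsets.mp hB).subset)
      rw [h1, hn A hc, add_zero]
    · obtain ⟨u, _, hu⟩ := om_bad (n := n) hc
      rw [hu P, hu Pᶜ, compl_compl]
      have h1 : ∑ B ∈ A.ssubsets, om G n B P = ∑ B ∈ A.ssubsets, om G n B Pᶜ := by
        rw [← sum_ssub_ssub (fun B => om G n B Pᶜ) A]
        exact sum_congr rfl fun B hB => ih B (mem_ssubsets.mp hB) P
      rw [h1]
      by_cases h2 : u ∈ P
      · rw [if_pos h2, if_neg (by simpa using h2), zero_add]
      · rw [if_neg h2, if_pos (by simpa using h2), add_self]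

/-- `om A P` depends only on the intersection of `P` with the bad vertices -/
theorem om_congr (A : Finset V) :
    ∀ P Q : Finset V, (∀ u, Bad G A u → (u ∈ P ↔ u ∈ Q)) → om G n A P = om G n A Q := by
  induction A using Finset.strongInduction with
  | H A ih =>
    intro P Q h
    by_cases hc : G.IsClique (A : Set V)
    · rw [om_clique hc, om_clique hc]
    · obtain ⟨u, hb, hu⟩ := om_bad (n := n) hc
      rw [hu P, hu Q]
      have h1 : ∑ B ∈ A.ssubsets, om G n B Pᶜ = ∑ B ∈ A.ssubsets, om G n B Qᶜ := by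
        refine sum_congr rfl fun B hB => ih B (mem_ssubsets.mp hB) _ _ ?_
        rintro w ⟨h2, x, h3, h4, h5⟩
        have h6 := (mem_ssubsets.mp hB).subset
        rw [mem_compl, mem_compl, h w ⟨h6 h2, x, h6 h3, h4, h5⟩]
      rw [h1]
      by_cases h2 : u ∈ P
      · rw [if_pos h2, if_pos ((h u hb).mp h2)]
      · rw [if_neg h2, if_neg (fun h3 => h2 ((h u hb).mpr h3))]

end om

end Pool.Agent.H87.Oct
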