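import Pool.Agent.H87.Oct.Coh
import Pool.Graph.R_pool_sql_team_seeded_64922ed1.X250.Sph.MorseS

/-!
# The slope of the octahedralization
-/

set_option autoImplicit false
set_option linter.unusedSectionVars false

namespace Pool.Agent.H87.Oct

open Finset Module Pool.Agent.W907.SG Pool.Agent.W907.SM Pool.Agent.R782.Bal
open Pool.Agent.X250.Sph (Slope HasSlope)

section transfer

variable {V U : Type} [Fintype V] [LinearOrder V] [Fintype U] [LinearOrder U]
  {G : SimpleGraph V} {H : SimpleGraph U} (f : V ↪ U)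

theorem clique_map (hf : ∀ u v, G.Adj u v ↔ H.Adj (f u) (f v)) (T : Finset V) :
    H.IsClique ((T.map f : Finset U) : Set U) ↔ G.IsClique (T : Set V) := by
  constructor
  · intro h u hu v hv huv
    rw [hf]
    refine h ?_ ?_ (fun e => huv (f.injective e))
    · exact_mod_cast mem_map_of_mem f hu
    · exact_mod_cast mem_map_of_mem f hv
  · intro h a ha b hb hab
    rw [mem_coe, mem_map] at ha hb
    obtain ⟨u, hu, rfl⟩ := ha
    obtain ⟨v, hv, rfl⟩ := hb
    rw [← hf]
    exact h hu hv (fun e => hab (by rw [e]))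

/-- transfer of mod 2 acyclicity to the image of an embedding -/
theorem ex2_range (hf : ∀ u v, G.Adj u v ↔ H.Adj (f u) (f v)) {k : ℕ} (h : Ex2 G k) :
    ZZ H (tF (ZMod 2) U) (Set.range f) ∅ k ≤ BB H (tF (ZMod 2) U) (Set.range f) ∅ k := by
  classical
  rintro z ⟨hz1, hz2⟩
  have hz1 := mem_KK_tF.mp hz1
  have hz2 : bd (ZMod 2) z = 0 := hz2
  have hmap : ∀ T : Finset V, ((T.map f : Finset U) : Set U) ⊆ Set.range f := by
    intro T x hx
    rw [mem_coe, mem_map] at hx
    obtain ⟨v, _, rfl⟩ := hx
    exact ⟨v, rfl⟩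
  -- sums over the complement
  have hsum : ∀ (g : Finset U → ZMod 2), (∀ S : Finset U, ¬ (S : Set U) ⊆ Set.range f → g S = 0) →
      ∀ T : Finset V, ∑ x ∈ (T.map f)ᶜ, g (insert x (T.map f)) = ∑ v ∈ Tᶜ, g ((insert v T).map f) := by
    intro g hg T
    symm
    rw [← sum_subset (s₁ := (Tᶜ).map f)]
    · rw [sum_map]
      refine sum_congr rfl fun v _ => ?_
      rw [map_insert]
    · intro x hx
      rw [mem_map] at hx
      obtain ⟨v, hv, rfl⟩ := hx
      rw [mem_compl] at hv ⊢
      rw [mem_map' f]
      exact hv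
    · intro x hx hx2
      refine hg _ fun h1 => hx2 ?_
      have h2 : x ∈ Set.range f := h1 (by simp)
      obtain ⟨v, rfl⟩ := h2
      rw [mem_map' f, mem_compl]
      rw [mem_compl, mem_map' f] at hx
      exact hx
  have hzr : ∀ S : Finset U, ¬ (S : Set U) ⊆ Set.range f → z S = 0 := by
    intro S hS
    refine hz1 S ?_
    rintro ⟨_, h2, _⟩
    exact hS h2
  obtain ⟨y', hy', hyz⟩ := h (show (fun T : Finset V => z (T.map f)) ∈ ZZ G (tF (ZMod 2) V) Set.univ ∅ k from by
    refine ⟨?_, ?_⟩
    · rw [SetLike.mem_coe, mem_KK_tF]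
      intro T hT
      refine hz1 _ ?_
      rintro ⟨h1, _, h3⟩
      rw [card_map] at h3
      exact hT ⟨(clique_map f hf T).mp h1, Set.subset_univ _, h3⟩
    · show bd (ZMod 2) _ = 0
      funext T
      rw [bd_tr, ← hsum z hzr T, ← bd_tr, hz2]
      rfl)
  have hy' := mem_KK_tF.mp hy'
  have hpre : ∀ S : Finset U, (S : Set U) ⊆ Set.range f →
      (S.preimage f f.injective.injOn).map f = S := by
    intro S hS
    ext x
    rw [mem_map]
    constructor
    · rintro ⟨v, hv, rfl⟩
      exact mem_preimage.mp hv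
    · intro hx
      obtain ⟨v, rfl⟩ := hS hx
      exact ⟨v, mem_preimage.mpr hx, rfl⟩
  have hpre2 : ∀ T : Finset V, (T.map f).preimage f f.injective.injOn = T := by
    intro T
    ext v
    rw [mem_preimage, mem_map' f]
  set y : Finset U → ZMod 2 := fun S =>
    if (S : Set U) ⊆ Set.range f then y' (S.preimage f f.injective.injOn) else 0 with hy
  have hyr : ∀ S : Finset U, ¬ (S : Set U) ⊆ Set.range f → y S = 0 := fun S hS => if_neg hS
  have hym : ∀ T : Finset V, y (T.map f) = y' T := by
    intro T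
    rw [hy]
    simp only
    rw [if_pos (hmap T), hpre2]
  refine ⟨y, ?_, ?_⟩
  · rw [SetLike.mem_coe, mem_KK_tF]
    intro S hS
    by_cases h1 : (S : Set U) ⊆ Set.range f
    · rw [← hpre S h1, hym]
      refine hy' _ ?_
      rintro ⟨h2, _, h4⟩
      apply hS
      rw [← hpre S h1, card_map]
      exact ⟨(clique_map f hf _).mpr h2, hmap _, h4⟩
    · exact hyr S h1
  · funext S
    by_cases h1 : (S : Set U) ⊆ Set.range f
    · obtain ⟨T, rfl⟩ : ∃ T : Finset V, T.map f = S := ⟨_, hpre S h1⟩
      rw [bd_tr, hsum y hyr T, sum_congr rfl fun v _ => hym (insert v T), ← bd_tr, hyz]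
    · rw [bd_tr, hzr S h1]
      refine sum_eq_zero fun x _ => hyr _ fun h2 => h1 ?_
      intro u hu
      exact h2 (by
        rw [mem_coe] at hu ⊢
        exact mem_insert_of_mem hu)

end transfer

variable {V : Type} [Fintype V] [DecidableEq V] {G : SimpleGraph V}

omit [Fintype V] in
/-- the slope of the octahedralization -/
def octSlope (G : SimpleGraph V) : Slope (oct G) (V → Bool) where
  a v x := Function.update x v.1 (!x v.1)
  inv v x := by
    funext w
    by_cases h : w = v.1
    · subst h
      simp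
    · simp [Function.update_of_ne h]
  comm u v h x := by
    have hne : u.1 ≠ v.1 := fun e => G.ne_of_adj h e
    funext w
    by_cases h1 : w = u.1
    · subst h1
      simp [Function.update_of_ne hne]
    · by_cases h2 : w = v.1
      · subst h2
        simp [Function.update_of_ne h1]
      · simp [Function.update_of_ne h1, Function.update_of_ne h2]
  dn v x := x v.1 == v.2
  self v x := by
    simp only [Function.update_self]
    cases x v.1 <;> cases v.2 <;> rfl
  other u v h x := by
    have hne : u.1 ≠ v.1 := fun e => G.ne_of_adj h e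
    rw [Function.update_of_ne hne]

/-- the section -/
def sect (x : V → Bool) : V ↪ V × Bool := ⟨fun v => (v, x v), fun _ _ h => (Prod.mk.inj h).1⟩

theorem down_eq (x : V → Bool) : (octSlope G).down x = Set.range (sect x) := by
  ext ⟨v, b⟩
  rw [Slope.mem_down]
  simp only [octSlope, beq_iff_eq, Set.mem_range]
  constructor
  · intro h
    exact ⟨v, by rw [← h]; rfl⟩
  · rintro ⟨w, h⟩
    obtain ⟨rfl, h2⟩ := Prod.mk.inj h
    exact h2

theorem hasSlope_oct [LinearOrder V] [LinearOrder (V × Bool)] {k : ℕ} (h : Ex2 G k) :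
    HasSlope (oct G) k := by
  classical
  refine ⟨V → Bool, inferInstance, ⟨fun _ => true⟩, octSlope G, fun x => ?_⟩
  rw [down_eq]
  have h1 := ex2_range (H := oct G) (sect x) (fun u v => Iff.rfl) h
  have h2 := beta_real_le 2 (oct G) (Set.range (sect x)) k
  have h3 : beta (oct G) (tF (ZMod 2) (V × Bool)) (Set.range (sect x)) ∅ k = 0 := by
    unfold beta
    have := Submodule.finrank_mono h1
    omega
  rw [h3] at h2
  exact Nat.le_zero.mp h2

/-- **`ℓ²`-vanishing for octahedralizations** from mod 2 acyclicity -/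
theorem l2_oct [LinearOrder V] [LinearOrder (V × Bool)] {k : ℕ} (h : Ex2 G k) : L2Van (oct G) k :=
  (hasSlope_oct h).l2van

end Pool.Agent.H87.Oct
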